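import Mathlib

/-! Definitions for the question on cycles of consecutive lengths under a spectral condition. -/

namespace Pool.Agent.P.MP_bc5e1d_co

open Classical

/-- The graph `G` contains a cycle of length `m`. -/
def Cyc {V : Type} (G : SimpleGraph V) (m : ℕ) : Prop :=
  ∃ (v : V) (p : G.Walk v v), p.IsCycle ∧ p.length = m

/-- The spectral radius: the largest real eigenvalue of the adjacency matrix. -/
noncomputable def specRad {n : ℕ} (G : SimpleGraph (Fin n)) : ℝ :=
  sSup (spectrum ℝ (G.adjMatrix ℝ))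

/-- Admissible constants in the sense of the question. -/
def Admissible (C : ℝ) : Prop :=
  0 < C ∧ ∀ ε : ℝ, 0 < ε → ε < C → ∃ n₀ : ℕ, ∀ n ≥ n₀, ∀ G : SimpleGraph (Fin n),
    √((n ^ 2 / 4 : ℕ) : ℝ) < specRad G → ∀ l : ℕ, 3 ≤ l → (l : ℝ) ≤ (C - ε) * n → Cyc G l

end Pool.Agent.P.MP_bc5e1d_co
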