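import Pool.Agent.P.MP_bc5e1d_co.Spec

/-! The spectral radius of connected graphs without long paths. -/

namespace Pool.Agent.P.MP_bc5e1d_co

open Finset Classical

variable {V : Type} [Fintype V] [DecidableEq V] {G : SimpleGraph V}

omit [Fintype V] [DecidableEq V] in
theorem sum_le_of_card {x : V → ℝ} (hx : ∀ v, 0 ≤ x v) {A B : Finset V} (h : A.card ≤ B.card)
    (hab : ∀ a ∈ A, ∀ b ∈ B, x a ≤ x b) : ∑ v ∈ A, x v ≤ ∑ v ∈ B, x v := by
  rcases B.eq_empty_or_nonempty with rfl | hB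
  · rw [card_empty, Nat.le_zero, card_eq_zero] at h; rw [h]
  · obtain ⟨b, hb, hm⟩ := B.exists_min_image x hB
    exact (sum_le_card_nsmul _ _ _ fun a ha => hab a ha b hb).trans
      ((nsmul_le_nsmul_left (hx b) h).trans (card_nsmul_le_sum _ _ _ hm))

/-- The adjacency form of a clique on `U` together with all edges from `T` to the rest of `Z`. -/
def Phi (x : V → ℝ) (Z T U : Finset V) : ℝ :=
  (∑ v ∈ U, x v) ^ 2 + 2 * (∑ v ∈ T, x v) * ∑ v ∈ Z \ U, x v

omit [Fintype V] in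
theorem top_pair {x : V → ℝ} (hx : ∀ v, 0 ≤ x v) {Z T U : Finset V} (hT : T ⊆ U) (hU : U ⊆ Z) :
    ∃ T' U', T' ⊆ U' ∧ U' ⊆ Z ∧ T'.card = T.card ∧ U'.card = U.card ∧
      Phi x Z T U ≤ Phi x Z T' U' ∧ ∀ N ⊆ Z, N.card ≤ T.card → ∑ v ∈ N, x v ≤ ∑ v ∈ T', x v := by
  obtain ⟨⟨T', U'⟩, hp, hm⟩ := ((Z.powerset ×ˢ Z.powerset).filter fun p => p.1 ⊆ p.2 ∧
    p.1.card = T.card ∧ p.2.card = U.card ∧ Phi x Z T U ≤ Phi x Z p.1 p.2).exists_max_image
    (fun p => ∑ v ∈ p.1, x v) ⟨(T, U), by simp [hT, hU, hT.trans hU]⟩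
  simp only [mem_filter, mem_product, mem_powerset, Prod.forall, and_imp] at hp hm
  obtain ⟨⟨h0, h1⟩, h2, h3, h4, h5⟩ := hp
  refine ⟨T', U', h2, h1, h3, h4, h5, fun N hN hc => ?_⟩
  by_contra hlt
  have : ∃ w ∈ N \ T', ∃ u ∈ T' \ N, x u < x w := by
    by_contra hx'
    push Not at hx'
    have a1 := sum_le_of_card hx (A := N \ T') (B := T' \ N)
      (by rw [card_sdiff, card_sdiff, inter_comm]; omega) hx'
    have a2 := sum_sdiff_sub_sum_sdiff (s₁ := N) (s₂ := T') (f := x)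
    linarith
  obtain ⟨w, hw, u, hu, huw⟩ := this
  obtain ⟨hwN, hwT⟩ := mem_sdiff.1 hw
  have huT := (mem_sdiff.1 hu).1
  have sw : ∀ S : Finset V, u ∈ S → w ∉ S → (insert w (S.erase u)).card = S.card ∧
      ∑ v ∈ insert w (S.erase u), x v = ∑ v ∈ S, x v + (x w - x u) := fun S h1 h2 => by
    have h3 : w ∉ S.erase u := fun h => h2 (mem_of_mem_erase h)
    rw [card_insert_of_notMem h3, card_erase_add_one h1, sum_insert h3, ← add_sum_erase S x h1]
    exact ⟨rfl, by ring⟩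
  obtain ⟨c1, s1⟩ := sw T' huT hwT
  have r0 : 0 ≤ ∑ v ∈ Z \ U', x v := sum_nonneg fun v _ => hx v
  have i1 : insert w (T'.erase u) ⊆ Z := insert_subset (hN hwN) ((erase_subset _ _).trans h0)
  by_cases hwU : w ∈ U'
  · have := hm (insert w (T'.erase u)) U' i1 h1
      (insert_subset hwU ((erase_subset _ _).trans h2)) (c1.trans h3) h4 (h5.trans (by
        simp only [Phi, s1]; nlinarith))
    linarith
  · obtain ⟨c2, s2⟩ := sw U' (h2 huT) hwU
    have i2 : insert w (U'.erase u) ⊆ Z := insert_subset (hN hwN) ((erase_subset _ _).trans h1)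
    have := hm (insert w (T'.erase u)) (insert w (U'.erase u)) i1 i2
      (insert_subset_insert _ (erase_subset_erase _ h2)) (c1.trans h3) (c2.trans h4) (h5.trans (by
        have e1 := sum_sdiff (f := x) h1
        have e2 := sum_sdiff (f := x) i2
        have e3 : ∑ v ∈ Z \ insert w (U'.erase u), x v = ∑ v ∈ Z \ U', x v - (x w - x u) := by
          linarith
        have e4 : x w ≤ ∑ v ∈ Z \ U', x v :=
          single_le_sum (fun v _ => hx v) (mem_sdiff.2 ⟨hN hwN, hwU⟩)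
        have e5 : ∑ v ∈ T', x v ≤ ∑ v ∈ U', x v :=
          sum_le_sum_of_subset_of_nonneg h2 fun v _ _ => hx v
        have e6 := mul_nonneg (sub_pos.2 huw).le (show 0 ≤ 2 * (∑ v ∈ U', x v - ∑ v ∈ T', x v) +
          2 * ∑ v ∈ Z \ U', x v - (x w - x u) by linarith [hx u, hx w])
        simp only [Phi, s1, s2, e3]
        linarith))
    linarith

omit [Fintype V] in
theorem dominate {x : V → ℝ} (hx : ∀ v, 0 ≤ x v) {U0 : Finset V} {a h : ℕ} (hah : a ≤ h)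
    (hd : ∀ Z ⊆ U0, h < Z.card → ∃ v ∈ Z, (Z.filter (G.Adj v)).card ≤ a) (m : ℕ) :
    ∀ Z ⊆ U0, Z.card = h + m → ∃ T U, T ⊆ U ∧ U ⊆ Z ∧ T.card = a ∧ U.card = h ∧
      bil G x x Z Z ≤ Phi x Z T U := by
  induction m with
  | zero =>
    intro Z _ hZ
    obtain ⟨T, hT, hc⟩ := exists_subset_card_eq (s := Z) (n := a) (by omega)
    refine ⟨T, Z, hT, Subset.rfl, hc, hZ, ?_⟩
    simp only [Phi, sdiff_self, bot_eq_empty, sum_empty, mul_zero, add_zero, sq, sum_mul_sum]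
    refine sum_le_sum fun v _ => sum_le_sum fun u _ => ?_
    split_ifs
    exacts [le_rfl, mul_nonneg (hx v) (hx u)]
  | succ m ih =>
    intro Z hZ hc
    obtain ⟨v, hv, hdv⟩ := hd Z hZ (by omega)
    have hs : Z.erase v ⊆ Z := erase_subset _ _
    obtain ⟨T, U, h1, h2, h3, h4, h5⟩ := ih (Z.erase v) (hs.trans hZ)
      (by rw [card_erase_of_mem hv]; omega)
    obtain ⟨T', U', g1, g2, g3, g4, g5, g6⟩ := top_pair hx h1 h2
    refine ⟨T', U', g1, g2.trans hs, g3.trans h3, g4.trans h4, ?_⟩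
    have e0 : Z \ Z.erase v = {v} := sdiff_erase_self hv
    have e1 : bil G x x {v} Z = x v * ∑ u ∈ Z.filter (G.Adj v), x u := by simp [bil_eq]
    have e2 : bil G x x {v} {v} = 0 := by simp [bil]
    have e3 := bil_right (G := G) (x := x) (y := x) {v} hs
    have e4 := g6 (Z.filter (G.Adj v)) (fun u hu => mem_erase.2
      ⟨(mem_filter.1 hu).2.ne', (mem_filter.1 hu).1⟩) (by omega)
    have e5 : Z \ U' = insert v (Z.erase v \ U') := by
      ext u
      have : v ∉ U' := fun h => by simpa using g2 h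
      by_cases hu : u = v <;> simp [hu, hv, this]
    rw [bil_left hs, bil_right _ hs, bil_comm x x (Z.erase v) (Z \ _), e0]
    rw [e0] at e3
    simp only [Phi] at g5 h5 ⊢
    rw [e5, sum_insert (by simp)]
    nlinarith [mul_le_mul_of_nonneg_left e4 (hx v)]

theorem amgm {X A B : ℝ} (hA : 0 ≤ A) (hB : 0 ≤ B) (h : X ^ 2 ≤ A * B) : 2 * X ≤ A + B :=
  (abs_le_of_sq_le_sq' (by nlinarith [sq_nonneg (A - B)]) (by positivity)).2

theorem numeric {μ s N a b r p q t τ β ρ : ℝ} (ha : 0 ≤ a) (hb : 0 ≤ b) (hr : 0 ≤ r) (hp : 0 ≤ p)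
    (hq : 0 ≤ q) (ht : 0 ≤ t) (h1 : p + q + t = 1) (hτ : τ ^ 2 ≤ a * p) (hβ : β ^ 2 ≤ b * q)
    (hρ : ρ ^ 2 ≤ r * t) (h : μ ≤ (τ + β) ^ 2 + 2 * τ * ρ) (hs : 2 * a + b ≤ 2 * s)
    (hμ : 2 * s < μ) (hN : a + b + r = N) (hμN : μ ≤ N) : μ ^ 2 ≤ s * (μ + N - s) := by
  have m0 : 0 < μ := by linarith
  have m1 : 0 < μ - b := by linarith
  have a1 := amgm (X := τ * ρ) (A := τ ^ 2 * r / μ) (B := μ * t) (by positivity) (by positivity) (by
    rw [mul_pow, show τ ^ 2 * r / μ * (μ * t) = τ ^ 2 * (r * t) by field_simp]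
    exact mul_le_mul_of_nonneg_left hρ (sq_nonneg _))
  have a2 := amgm (X := τ * β) (A := τ ^ 2 * b / (μ - b)) (B := (μ - b) * q) (by positivity)
    (by positivity) (by
    rw [mul_pow, show τ ^ 2 * b / (μ - b) * ((μ - b) * q) = τ ^ 2 * (b * q) by field_simp]
    exact mul_le_mul_of_nonneg_left hβ (sq_nonneg _))
  have a3 : μ * p ≤ τ ^ 2 * (μ / (μ - b) + r / μ) := by
    have : τ ^ 2 * (μ / (μ - b) + r / μ) = τ ^ 2 + τ ^ 2 * b / (μ - b) + τ ^ 2 * r / μ := by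
      field_simp; ring
    have e : μ * p = μ - μ * q - μ * t := by rw [show p = 1 - q - t by linarith]; ring
    rw [this, e]
    nlinarith
  have a4 := mul_le_mul_of_nonneg_right hτ (show 0 ≤ μ / (μ - b) + r / μ by positivity)
  rcases hp.eq_or_lt with rfl | hp'
  · have : τ = 0 := pow_eq_zero_iff two_ne_zero |>.1 (le_antisymm (by simpa using hτ) (sq_nonneg _))
    rw [this] at h
    nlinarith
  have a5 : μ ≤ a * (μ / (μ - b)) + a * r / μ :=
    le_of_mul_le_mul_right (a := p) (by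
      refine (a3.trans a4).trans (le_of_eq ?_); ring) hp'
  have a6 : a * (μ / (μ - b)) ≤ s := by
    rw [← mul_div_assoc, div_le_iff₀ m1]
    nlinarith
  have a7 : a * r ≤ s * (N - s) := by nlinarith
  have a8 : μ ≤ s + s * (N - s) / μ := by
    have := div_le_div_of_nonneg_right a7 m0.le
    linarith
  have := mul_le_mul_of_nonneg_right a8 m0.le
  rw [add_mul, div_mul_cancel₀ _ m0.ne'] at this
  linarith

theorem lam_path {U : Finset V} {k : ℕ} (hk2 : 2 ≤ k) {s : ℝ} (hs : k ≤ 2 * s)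
    (hl : 2 * s < lam G U) (hc : ∀ x ∈ U, ∀ y ∈ U, ∃ l, Ch G.Adj x y l ∧ ∀ v ∈ l, v ∈ U)
    (h : s * (lam G U + U.card - s) < lam G U ^ 2) :
    ∃ u v l, Ch G.Adj u v l ∧ l.Nodup ∧ (∀ v ∈ l, v ∈ U) ∧ k ≤ l.length := by
  by_contra hx
  push Not at hx
  obtain ⟨H, hA⟩ : ∃ H : SimpleGraph V, ∀ {a b}, H.Adj a b ↔ G.Adj a b ∧ a ∈ U ∧ b ∈ U :=
    ⟨⟨fun a b => G.Adj a b ∧ a ∈ U ∧ b ∈ U, ⟨fun _ _ h => ⟨h.1.symm, h.2.2, h.2.1⟩⟩,
      ⟨fun _ h => h.1.ne rfl⟩⟩, Iff.rfl⟩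
  have hH : ∀ u v l, Ch H.Adj u v l → l = [u] ∨ ∀ w ∈ l, w ∈ U := fun u v l c => by
    induction c with
    | one u => exact Or.inl rfl
    | cons r c ih =>
      refine Or.inr (List.forall_mem_cons.2 ⟨(hA.1 r).2.1, ?_⟩)
      rcases ih with rfl | ih
      · simpa using (hA.1 r).2.2
      · exact ih
  obtain ⟨a, h', h1, h2, h3⟩ := kop H (k := k) (fun u v l c n => by
    rcases hH u v l c with rfl | h
    · exact hk2
    · exact hx u v l (c.mono fun _ _ _ _ h => (hA.1 h).1) n h) hk2 U fun x hx y hy => by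
    obtain ⟨l, c, hl⟩ := hc x hx y hy
    exact ⟨l, c.mono fun a ha b hb h => hA.2 ⟨h, hl a ha, hl b hb⟩⟩
  have hU := lam_le_card (G := G) U
  have h4 : (a : ℝ) + h' ≤ k := by exact_mod_cast h2
  have h5 : h' ≤ U.card := by
    have : (h' : ℝ) ≤ U.card := by linarith [(Nat.cast_nonneg a : (0 : ℝ) ≤ a)]
    exact_mod_cast this
  have hne : U.Nonempty := by
    rw [← card_pos, ← Nat.cast_pos (α := ℝ)]
    have : (2 : ℝ) ≤ k := by exact_mod_cast hk2
    linarith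
  obtain ⟨x, hp⟩ := lam_per (G := G) hne
  obtain ⟨T, C, g1, g2, rfl, rfl, g5⟩ := dominate (G := G) hp.nonneg h1 (U0 := U) (fun Z hZ hh => by
    obtain ⟨v, hv, hd⟩ := h3 Z hZ hh
    refine ⟨v, hv, le_trans (card_le_card fun w hw => ?_) hd⟩
    rw [mem_filter] at hw ⊢
    exact ⟨hw.1, hA.2 ⟨hw.2, hZ hv, hZ hw.1⟩⟩) (U.card - h') U Subset.rfl (by omega)
  rw [hp.bil_sub Subset.rfl, hp.norm, mul_one, Phi, ← sum_sdiff g1, add_comm (∑ v ∈ C \ T, _)] at g5
  have c1 : ((C \ T).card : ℝ) + T.card = C.card := by exact_mod_cast card_sdiff_add_card_eq_card g1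
  have c2 : ((U \ C).card : ℝ) + C.card = U.card := by exact_mod_cast card_sdiff_add_card_eq_card g2
  refine absurd (numeric (Nat.cast_nonneg T.card) (Nat.cast_nonneg (C \ T).card)
    (Nat.cast_nonneg (U \ C).card) (sum_nonneg fun _ _ => sq_nonneg _)
    (sum_nonneg fun _ _ => sq_nonneg _) (sum_nonneg fun _ _ => sq_nonneg _) ?_
    sq_sum_le_card_mul_sum_sq sq_sum_le_card_mul_sum_sq sq_sum_le_card_mul_sum_sq g5
    (by linarith) hl (by linarith) hU) (not_le.2 h)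
  rw [← hp.norm, ← sum_sdiff g2, ← sum_sdiff g1]
  ring

end Pool.Agent.P.MP_bc5e1d_co
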