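import Pool.Agent.P.MP_bc5e1d_co.Main

/-! The link with the spectrum of the adjacency matrix and the extremal graphs. -/

namespace Pool.Agent.P.MP_bc5e1d_co

open Finset Classical

theorem mulVec_eq {n : ℕ} (G : SimpleGraph (Fin n)) (y : Fin n → ℝ) (v : Fin n) :
    Matrix.toLin' (G.adjMatrix ℝ) y v = ∑ u ∈ univ.filter (G.Adj v), y u := by
  rw [Matrix.toLin'_apply, SimpleGraph.adjMatrix_mulVec_apply, SimpleGraph.neighborFinset_eq_filter]

theorem le_lam {n : ℕ} {G : SimpleGraph (Fin n)} {μ : ℝ} (h : μ ∈ spectrum ℝ (G.adjMatrix ℝ)) :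
    μ ≤ lam G univ := by
  rw [← Matrix.spectrum_toLin', ← Module.End.hasEigenvalue_iff_mem_spectrum] at h
  obtain ⟨y, hy⟩ := h.exists_hasEigenvector
  have h1 := lam_bnd (G := G) univ y
  rw [bil_eq, sum_congr rfl (g := fun v => μ * y v ^ 2) fun v _ => by
    rw [← mulVec_eq, hy.apply_eq_smul, Pi.smul_apply, smul_eq_mul]; ring, ← mul_sum] at h1
  obtain ⟨v, hv⟩ := Function.ne_iff.1 hy.2
  exact le_of_mul_le_mul_right h1 (sum_pos' (fun _ _ => sq_nonneg _) ⟨v, mem_univ _, by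
    exact pow_pos (abs_pos.2 hv) 2 |>.trans_eq (sq_abs _)⟩)

theorem specRad_eq {n : ℕ} (G : SimpleGraph (Fin n)) : specRad G = lam G univ := by
  refine le_antisymm (Real.sSup_le (fun μ => le_lam) (lam_nonneg _)) ?_
  rcases (univ : Finset (Fin n)).eq_empty_or_nonempty with e | e
  · rw [e, lam, dif_neg Finset.not_nonempty_empty]
    haveI : IsEmpty (Fin n) := univ_eq_empty_iff.1 e
    rw [specRad, spectrum.of_subsingleton, Real.sSup_empty]
  obtain ⟨x, hx⟩ := lam_per (G := G) e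
  refine le_csSup ⟨_, fun μ => le_lam⟩ ?_
  rw [← Matrix.spectrum_toLin', ← Module.End.hasEigenvalue_iff_mem_spectrum]
  refine Module.End.hasEigenvalue_of_hasEigenvector (x := x) ⟨Module.End.mem_eigenspace_iff.2
    (funext fun v => by rw [mulVec_eq, hx.eig v (mem_univ _)]; rfl), ?_⟩
  rintro rfl
  simpa using hx.norm

theorem cyc_le {V : Type} [DecidableEq V] {G : SimpleGraph V} {T : Finset V}
    (h : ∀ u v, G.Adj u v → u ∈ T ∨ v ∈ T) {l : ℕ} (hc : Cyc G l) : l ≤ 2 * T.card := by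
  obtain ⟨v, p, hp, rfl⟩ := hc
  have h1 := cnt_shift (fun x => x ∉ T) (fun x => x ∉ T) v p.support.tail fun A x y B e hx hy => by
    rw [p.cons_tail_support] at e
    have := h x y (List.isChain_iff_forall_rel_of_append_cons_cons.1 p.isChain_adj_support e)
    simp only [decide_eq_true_eq] at hx hy
    tauto
  rw [p.cons_tail_support, ← p.tail_support_perm_dropLast_support.countP_eq] at h1
  have h2 := countP_le_card (X := T) (p := fun x => x ∈ T) hp.support_nodup fun x _ hx => by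
    simpa using hx
  have h3 := List.length_eq_countP_add_countP (fun x => decide (x ∈ T)) (l := p.support.tail)
  have h4 : p.support.tail.length = p.length := by simp
  simp only [decide_eq_true_eq] at h3
  omega

theorem extremal {n : ℕ} (hn : 10 ≤ n) : ∃ G : SimpleGraph (Fin n),
    √((n ^ 2 / 4 : ℕ) : ℝ) < specRad G ∧ ∀ l : ℕ, Cyc G l → (l : ℝ) ≤ (3 - √5) / 2 * n + 4 := by
  obtain ⟨c1, c2, c3⟩ := c_facts
  set c : ℝ := (3 - √5) / 4 with hc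
  have n0 : (10 : ℝ) ≤ n := by exact_mod_cast hn
  have a1 := mul_le_mul_of_nonneg_right c2 (show (0 : ℝ) ≤ n by linarith)
  have a2 := mul_le_mul_of_nonneg_right c3 (show (0 : ℝ) ≤ n by linarith)
  obtain ⟨s, s1, s2⟩ : ∃ s : ℕ, c * n + 1 ≤ s ∧ (s : ℝ) ≤ c * n + 2 :=
    ⟨_, Nat.le_ceil _, (Nat.ceil_lt_add_one (by linarith)).le.trans (by linarith)⟩
  obtain ⟨T, -, hT⟩ := exists_subset_card_eq (s := (univ : Finset (Fin n))) (n := s) (by
    rw [card_univ, Fintype.card_fin]; exact_mod_cast (show (s : ℝ) ≤ n by linarith))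
  obtain ⟨G, hG⟩ : ∃ G : SimpleGraph (Fin n), ∀ {u v}, G.Adj u v ↔ u ≠ v ∧ (u ∈ T ∨ v ∈ T) :=
    ⟨⟨fun u v => u ≠ v ∧ (u ∈ T ∨ v ∈ T), ⟨fun _ _ h => ⟨h.1.symm, h.2.symm⟩⟩,
      ⟨fun _ h => h.1 rfl⟩⟩, Iff.rfl⟩
  refine ⟨G, ?_, fun l hl => ?_⟩
  · rw [specRad_eq]
    have b : (4 : ℝ) * ((n ^ 2 / 4 : ℕ) : ℝ) ≤ (n : ℝ) ^ 2 := by exact_mod_cast Nat.mul_div_le _ _
    refine (Real.sqrt_le_iff.2 ⟨show (0 : ℝ) ≤ n / 2 by linarith, by linarith⟩).trans_lt ?_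
    have cT : ((univ \ T).card : ℝ) = n - s := by
      rw [card_univ_sdiff, Nat.cast_sub (card_le_univ T), Fintype.card_fin, hT]
    let y : Fin n → ℝ := fun v => if v ∈ T then n / 2 else s
    have sT : ∀ (A : Finset (Fin n)) (f : Fin n → ℝ) (r : ℝ), (∀ v ∈ A, f v = r) →
        ∑ v ∈ A, f v = A.card * r := fun A f r h => by rw [sum_congr rfl h, sum_const, nsmul_eq_mul]
    have y1 : ∀ v ∈ T, y v = n / 2 := fun v hv => if_pos hv
    have y2 : ∀ v ∈ univ \ T, y v = s := fun v hv => if_neg (mem_sdiff.1 hv).2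
    have tot : ∑ u, y u = (n - s) * s + s * (n / 2) := by
      rw [← sum_sdiff (subset_univ T), sT _ _ _ y1, sT _ _ _ y2, cT, hT]
    have h := lam_bnd (G := G) univ y
    rw [bil_eq, ← sum_sdiff (subset_univ T), ← sum_sdiff (subset_univ T) (f := fun v => y v ^ 2),
      sT T _ (n / 2 * ((n - s) * s + s * (n / 2) - n / 2)) fun v hv => by
        rw [y1 v hv, ← tot, ← y1 v hv, ← sum_erase_eq_sub (mem_univ v)]
        congr 2
        ext u
        simp [hG, hv, ne_comm],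
      sT (univ \ T) _ (s * (s * (n / 2))) fun v hv => by
        rw [y2 v hv, ← hT, ← sT _ _ _ y1]
        congr 2
        ext u
        simp only [mem_filter, mem_univ, true_and, hG, (mem_sdiff.1 hv).2, false_or]
        exact ⟨fun h => h.2, fun h => ⟨fun e => (mem_sdiff.1 hv).2 (e ▸ h), h⟩⟩,
      sT T _ ((n / 2) ^ 2) fun v hv => by rw [y1 v hv],
      sT (univ \ T) _ (s ^ 2) fun v hv => by rw [y2 v hv], cT, hT] at h
    by_contra hl
    have s0 : (0 : ℝ) < s := by linarith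
    have p1 : (0 : ℝ) ≤ (n - s) * s ^ 2 + s * (n / 2) ^ 2 := by
      have : (0 : ℝ) ≤ n - s := by linarith
      positivity
    have p2 := mul_le_mul_of_nonneg_right (not_lt.1 hl) p1
    obtain ⟨t, ht⟩ : ∃ t : ℝ, s = c * n + t := ⟨s - c * n, by ring⟩
    have p3 : 0 < ((s : ℝ) - 1) * n / 2 + s * (n - s) - n ^ 2 / 4 := by
      have e : (n : ℝ) ^ 2 * (c ^ 2 - 3 / 2 * c + 1 / 4) = 0 := by rw [c1, mul_zero]
      have q1 := mul_le_mul_of_nonneg_right (show 1 ≤ t by linarith)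
        (show 0 ≤ 3 / 2 * n - 2 * (c * n) - t by linarith)
      rw [ht]
      nlinarith
    have p4 := mul_pos (mul_pos s0 (show (0 : ℝ) < n / 2 by linarith)) p3
    nlinarith
  · have : (l : ℝ) ≤ 2 * s := by exact_mod_cast hT ▸ cyc_le (fun u v r => (hG.1 r).2) hl
    rw [hc] at s2
    linarith

theorem main : ∃ K : ℕ, ∀ n : ℕ,
    (∀ G : SimpleGraph (Fin n), √((n ^ 2 / 4 : ℕ) : ℝ) < specRad G →
      ∀ l : ℕ, 3 ≤ l → (l : ℝ) ≤ (3 - √5) / 2 * n - K → Cyc G l) ∧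
    (10 ≤ n → ∃ G : SimpleGraph (Fin n), √((n ^ 2 / 4 : ℕ) : ℝ) < specRad G ∧
      ∀ l : ℕ, Cyc G l → (l : ℝ) ≤ (3 - √5) / 2 * n + 4) := by
  obtain ⟨K, hK⟩ : ∃ K : ℕ, 5000000 ≤ K := ⟨_, le_rfl⟩
  obtain ⟨M, hM⟩ : ∃ M, M = 3 * (61 ^ 300 * (K + 1)) := ⟨_, rfl⟩
  refine ⟨M + 6 * (6 * K + 1), fun n => ⟨fun G h l h3 hl => ?_, extremal⟩⟩
  obtain ⟨-, -, c3⟩ := c_facts
  have a := mul_le_mul_of_nonneg_right c3 (Nat.cast_nonneg (α := ℝ) n)
  push_cast at hl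
  have K0 : (0 : ℝ) ≤ K := Nat.cast_nonneg _
  have M0 : (0 : ℝ) ≤ M := Nat.cast_nonneg _
  have l0 : (0 : ℝ) ≤ l := Nat.cast_nonneg _
  have n0 : (0 : ℝ) ≤ n := Nat.cast_nonneg _
  rw [specRad_eq] at h
  rw [Real.sqrt_lt' ((Real.sqrt_nonneg _).trans_lt h)] at h
  exact cycles (Fintype.card_fin n) hK (hM ▸ by exact_mod_cast (show (M : ℝ) ≤ n by linarith)) h h3
    (by linarith)

theorem greatest : IsGreatest {C : ℝ | Admissible C} ((3 - √5) / 2) := by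
  obtain ⟨K, hK⟩ := main
  obtain ⟨-, c2, -⟩ := c_facts
  refine ⟨⟨by linarith, fun ε h0 _ => ⟨⌈K / ε⌉₊, fun n hn G h l h3 hl => (hK n).1 G h l h3 ?_⟩⟩,
    fun C hC => le_of_not_gt fun hlt => ?_⟩
  · have := (div_le_iff₀ h0).1 (Nat.ceil_le.1 hn)
    linarith
  · obtain ⟨ε, e0, rfl⟩ : ∃ ε, 0 < ε ∧ C = (3 - √5) / 2 + 2 * ε :=
      ⟨(C - (3 - √5) / 2) / 2, by linarith, by ring⟩
    obtain ⟨n₀, h⟩ := hC.2 ε e0 (by linarith)
    obtain ⟨n, n1, n2, n3⟩ : ∃ n : ℕ, n₀ ≤ n ∧ 10 ≤ n ∧ ⌈6 / ε⌉₊ ≤ n :=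
      ⟨n₀ + 10 + ⌈6 / ε⌉₊, by omega, by omega, by omega⟩
    obtain ⟨G, g1, g2⟩ := (hK n).2 n2
    have a := (div_le_iff₀ e0).1 (Nat.ceil_le.1 n3)
    have b : 0 ≤ (3 - √5) / 2 * (n : ℝ) := mul_nonneg (by linarith) (Nat.cast_nonneg _)
    have b1 := Nat.le_ceil ((3 - √5) / 2 * (n : ℝ) + 5)
    have b2 := Nat.ceil_lt_add_one (show 0 ≤ (3 - √5) / 2 * (n : ℝ) + 5 by linarith)
    have := g2 _ (h n n1 G g1 ⌈(3 - √5) / 2 * (n : ℝ) + 5⌉₊
      (by exact_mod_cast (show (3 : ℝ) ≤ ⌈(3 - √5) / 2 * (n : ℝ) + 5⌉₊ by linarith)) (by linarith))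
    linarith

end Pool.Agent.P.MP_bc5e1d_co
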