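import Pool.Agent.P.MP_bc5e1d_co.Path

/-! Kopylov's closure argument for connected graphs without long paths. -/

namespace Pool.Agent.P.MP_bc5e1d_co

open List

variable {V : Type} {R : V → V → Prop}

/-- There is no path with `k` vertices. -/
def NoP (R : V → V → Prop) (k : ℕ) : Prop := ∀ u v l, Ch R u v l → l.Nodup → l.length < k

theorem cnt_head {p : V → Bool} {a : V} {M : List V} (h : ¬ p a) : (a :: M).countP p = M.countP p := by
  simp [h]

theorem cross (hs : ∀ a b, R a b → R b a) (hi : ∀ a, ¬ R a a) [DecidableRel R] {k : ℕ}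
    (hk : NoP R k) {x y e1 e2 : V} {l1 l2 : List V} (c1 : Ch R x e1 l1) (c2 : Ch R y e2 l2)
    (hn : (l1 ++ l2).Nodup) (hm : k ≤ l1.length + l2.length)
    (hc : k ≤ (l1 ++ l2).countP (R x) + (l1 ++ l2).countP (R y) + 1) : ∀ a ∈ l1, ¬ R y a := by
  have gap0 : ∀ {x y e1 e2 : V} {l1 l2 : List V}, Ch R x e1 l1 → Ch R y e2 l2 →
      (l1 ++ l2).Nodup → k ≤ l1.length + l2.length →
      ¬ R y e1 ∧ ∀ A a b B, l1 = A ++ a :: b :: B → R y a → ¬ R x b := by
    intro x y e1 e2 l1 l2 c1 c2 hn hm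
    refine ⟨fun h => ?_, ?_⟩
    · have := hk _ _ _ (c1.app (hs _ _ h) c2) hn
      simp at this; omega
    · rintro A a b B rfl ha hb
      have c3 : Ch R b e1 (b :: B) := by
        rw [← singleton_append (l := b :: B), ← append_assoc] at c1; exact c1.right
      have := hk _ _ _ (((c3.rev hs).app (hs _ _ hb) c1.left).app (hs _ _ ha) c2)
        (hn.perm ((Perm.append_right _ (by
          rw [show A ++ a :: b :: B = (A ++ [a]) ++ (b :: B) by simp]
          exact perm_append_comm.trans ((reverse_perm _).symm.append_right _)))))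
      simp at this hm; omega
  obtain ⟨g1, g2⟩ := gap0 c1 c2 hn hm
  obtain ⟨g3, g4⟩ := gap0 c2 c1 (hn.perm perm_append_comm) (by omega)
  by_contra hex
  push Not at hex
  obtain ⟨A, a, T, rfl, ha, hT⟩ := split_last (R y) hex
  obtain ⟨Gp, B, s, rfl, hG, c3⟩ := endAt hs c1
  have h1 := hk _ _ _ (c3.app (hs _ _ ha) c2) ((hn.sublist (Sublist.append_right
    (show ((A ++ [a]) ++ B).Sublist _ by simp) _)).perm (Perm.append_right _
      (perm_append_comm.trans ((reverse_perm _).symm.append_right _))))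
  obtain ⟨t1, e1'⟩ := c1.left.head
  obtain ⟨t2, rfl⟩ := c2.head
  have n1 := cnt_shift (R x) (R y) x t1 fun A' u v B' e hu => by
    simpa using g2 A' u v (B' ++ (Gp ++ B)) (by
      rw [show A ++ a :: (Gp ++ B) = (A ++ [a]) ++ (Gp ++ B) by simp, e1', e]; simp)
      (by simpa using hu)
  have n2 := cnt_shift (R y) (R x) y t2 fun A' u v B' e hu => by
    simpa using g4 A' u v B' e (by simpa using hu)
  obtain ⟨t3, e3⟩ := c2.last
  have n3 : (y :: t2).countP (R x) = (y :: t2).dropLast.countP (R x) := by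
    rw [e3]; simp [g3]
  have n4 : (A ++ [a]).countP (R y) ≤ (x :: t1).dropLast.countP (R y) + 1 := by
    rw [← e1']; simp [countP_cons]; split_ifs; omega
  have n5 : (A ++ [a]).countP (R x) = t1.countP (R x) := by rw [e1', cnt_head (by simp [hi])]
  have n6 : Gp.countP (R x) = 0 := by simpa using hG
  have n7 : (Gp ++ B).countP (R y) = 0 := countP_eq_zero.2 fun g hg => by simpa using hT g hg
  have n8 := countP_le_length (p := fun v => R x v) (l := B)
  have n9 : (y :: t2).countP (R y) = t2.countP (R y) := cnt_head (by simp [hi])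
  have n10 := congrArg length e1'
  rw [show A ++ a :: (Gp ++ B) = (A ++ [a]) ++ (Gp ++ B) by simp] at hc
  simp only [countP_append] at hc n4 n5 n7
  simp only [length_append, length_reverse, length_cons, length_nil] at h1 n10
  omega

theorem endAt_len (hs : ∀ a b, R a b → R b a) (hi : ∀ a, ¬ R a a) [DecidableRel R] {x e a : V}
    {l : List V} (h : Ch R x e l) (hn : l.Nodup) (ha : a ∈ l) : ∃ s l', Ch R s a l' ∧ l'.Nodup ∧
      (∀ v ∈ l', v ∈ l) ∧ l.countP (R x) + 1 ≤ l'.length := by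
  obtain ⟨A, T, rfl⟩ := append_of_mem ha
  obtain ⟨Gp, B, s, rfl, hG, c⟩ := endAt hs h
  refine ⟨s, _, c, (hn.sublist (show ((A ++ [a]) ++ B).Sublist _ by simp)).perm
    (perm_append_comm.trans ((reverse_perm _).symm.append_right _)), fun v hv => ?_, ?_⟩
  · simp only [mem_append, mem_reverse, mem_cons, not_mem_nil, or_false] at hv ⊢; tauto
  · obtain ⟨t1, e1⟩ := h.left.head
    have n5 : (A ++ [a]).countP (R x) = t1.countP (R x) := by rw [e1, cnt_head (by simp [hi])]
    have n6 : Gp.countP (R x) = 0 := by simpa using hG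
    have n8 := countP_le_length (p := fun v => R x v) (l := B)
    have n9 := countP_le_length (p := fun v => R x v) (l := t1)
    have n10 := congrArg length e1
    rw [show A ++ a :: (Gp ++ B) = (A ++ [a]) ++ (Gp ++ B) by simp]
    simp only [countP_append] at n5 ⊢
    simp only [length_append, length_reverse, length_cons, length_nil] at n10 ⊢
    omega

variable [Fintype V] [DecidableEq V]

theorem no_pair (hs : ∀ a b, R a b → R b a) (hi : ∀ a, ¬ R a a) [DecidableRel R] {k α β : ℕ}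
    (hk : NoP R k) {X Y : Finset V} (hX : ∀ x ∈ X, α ≤ (X.filter (R x)).card)
    (hY : ∀ y ∈ Y, β ≤ (Y.filter (R y)).card) (hαβ : k ≤ α + β + 1)
    (hc : ∀ x ∈ X, ∀ y ∈ Y, ∃ l, Ch R x y l) (d : ℕ) : ∀ x ∈ X, ∀ y ∈ Y, ∀ e1 e2 l1 l2,
      Ch R x e1 l1 → Ch R y e2 l2 → (l1 ++ l2).Nodup → k ≤ l1.length + l2.length →
      Fintype.card V < l1.length + l2.length + d → False := by
  induction d with
  | zero =>
    intro x hx y hy e1 e2 l1 l2 c1 c2 hn hm hd
    have := hn.length_le_card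
    simp at this; omega
  | succ d ih =>
    intro x hx y hy e1 e2 l1 l2 c1 c2 hn hm hd
    by_cases h1 : ∃ w ∈ X, R x w ∧ w ∉ l1 ++ l2
    · obtain ⟨w, hw, r, hw'⟩ := h1
      exact ih w hw y hy e1 e2 (w :: l1) l2 (Ch.cons (hs _ _ r) c1) c2 (nodup_cons.2 ⟨hw', hn⟩)
        (by simp; omega) (by simp; omega)
    by_cases h2 : ∃ w ∈ Y, R y w ∧ w ∉ l1 ++ l2
    · obtain ⟨w, hw, r, hw'⟩ := h2
      exact ih x hx w hw e1 e2 l1 (w :: l2) c1 (Ch.cons (hs _ _ r) c2)
        ((nodup_cons.2 ⟨hw', hn⟩).perm perm_middle.symm) (by simp; omega) (by simp; omega)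
    push Not at h1 h2
    have a1 := (hX x hx).trans (card_le_countP h1)
    have a2 := (hY y hy).trans (card_le_countP h2)
    have b1 := cross hs hi hk c1 c2 hn hm (by omega)
    have b2 := cross hs hi hk c2 c1 (hn.perm perm_append_comm) (by omega) (by
      rw [(perm_append_comm (l₁ := l2)).countP_eq, (perm_append_comm (l₁ := l2)).countP_eq]; omega)
    rw [countP_append, (countP_eq_zero (l := l2)).2 fun g hg => by simpa using b2 g hg] at a1
    rw [countP_append, (countP_eq_zero (l := l1)).2 fun g hg => by simpa using b1 g hg] at a2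
    obtain ⟨n1, n2, n3⟩ := nodup_append.1 hn
    obtain ⟨l, hl⟩ := hc x hx y hy
    obtain ⟨a, ha, b, hb, M, c, nM, m1, m2⟩ :=
      bridge (fun v h1 h2 => n3 v h1 v h2 rfl) hl c1.head_mem c2.head_mem
    obtain ⟨s1, p1, d1, o1, i1, j1⟩ := endAt_len hs hi c1 n1 ha
    obtain ⟨s2, p2, d2, o2, i2, j2⟩ := endAt_len hs hi c2 n2 hb
    have d3 := d2.rev hs
    obtain ⟨t, ht⟩ := d3.head
    rw [ht] at d3
    have d4 := d1.join (l' := M ++ [b] ++ t) (c.join d3)
    rw [append_assoc, singleton_append, ← ht] at d4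
    have := hk _ _ _ d4 (nodup_append.2 ⟨o1, nodup_append.2 ⟨nM, nodup_reverse.2 o2, by
      rintro v hv _ hv' rfl; exact m2 v hv (i2 v (mem_reverse.1 hv'))⟩, by
      rintro v hv _ hv' rfl
      rcases mem_append.1 hv' with h | h
      exacts [m1 v h (i1 v hv), n3 v (i1 v hv) v (i2 v (mem_reverse.1 h)) rfl]⟩)
    simp only [length_append, length_reverse] at this
    omega

omit [Fintype V] [DecidableEq V] in
theorem split_edge {x y u v : V} {l : List V}
    (h : Ch (fun a b => R a b ∨ (a = x ∧ b = y) ∨ (a = y ∧ b = x)) u v l) (hn : l.Nodup) :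
    Ch R u v l ∨ ∃ A B p q, l = A ++ B ∧ Ch R u p A ∧ Ch R q v B ∧
      ((p = x ∧ q = y) ∨ (p = y ∧ q = x)) := by
  induction h with
  | one u => exact Or.inl (Ch.one u)
  | @cons u w v l r _ ih =>
    rcases ih hn.of_cons with c | ⟨A, B, p, q, rfl, c1, c2, e⟩
    · rcases r with r | r
      · exact Or.inl (Ch.cons r c)
      · exact Or.inr ⟨[u], l, u, w, rfl, Ch.one u, c, r⟩
    · rcases r with r | r
      · exact Or.inr ⟨u :: A, B, p, q, rfl, Ch.cons r c1, c2, e⟩
      · refine absurd ?_ (nodup_cons.1 hn).1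
        have h1 := c1.last_mem
        have h2 := c2.head_mem
        rcases r with ⟨rfl, -⟩ | ⟨rfl, -⟩ <;> rcases e with ⟨rfl, rfl⟩ | ⟨rfl, rfl⟩ <;> simp [*]

omit [Fintype V] [DecidableEq V] in
theorem clique_path {H : Finset V} (hH : ∀ x ∈ H, ∀ y ∈ H, x ≠ y → R x y) (hne : H.Nonempty) :
    ∃ u v l, Ch R u v l ∧ l.Nodup ∧ l.length = H.card := by
  have key : ∀ (l : List V) (a : V), (a :: l).Nodup → (∀ x ∈ a :: l, x ∈ H) →
      ∃ v, Ch R a v (a :: l) := by
    intro l
    induction l with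
    | nil => exact fun a _ _ => ⟨a, Ch.one a⟩
    | cons b l ih =>
      intro a hn hm
      obtain ⟨v, hv⟩ := ih b hn.of_cons fun x hx => hm x (mem_cons_of_mem _ hx)
      exact ⟨v, Ch.cons (hH a (hm a (by simp)) b (hm b (by simp)) (by
        rintro rfl; simp at hn)) hv⟩
  obtain ⟨a, l, e⟩ := exists_cons_of_ne_nil (Finset.Nonempty.toList_ne_nil hne)
  obtain ⟨v, hv⟩ := key l a (e ▸ H.nodup_toList) fun x hx => Finset.mem_toList.1 (e ▸ hx)
  exact ⟨a, v, _, hv, e ▸ H.nodup_toList, by rw [← e, Finset.length_toList]⟩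

open Classical in
/-- Every set of more than `h` vertices of `U` has a vertex with at most `a` neighbours in it. -/
theorem kop (G : SimpleGraph V) {k : ℕ} (hk : NoP G.Adj k) (hk2 : 2 ≤ k) (U : Finset V)
    (hc : ∀ x ∈ U, ∀ y ∈ U, ∃ l, Ch G.Adj x y l) : ∃ a h, a ≤ h ∧ a + h ≤ k ∧
      ∀ Z ⊆ U, h < Z.card → ∃ v ∈ Z, (Z.filter (G.Adj v)).card ≤ a := by
  obtain ⟨G', hG, hmax⟩ := (Set.toFinite {G' : SimpleGraph V | NoP G'.Adj k}).exists_le_maximal
    (a := G) hk
  have hc' : ∀ x ∈ U, ∀ y ∈ U, ∃ l, Ch G'.Adj x y l := fun x hx y hy =>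
    (hc x hx y hy).imp fun l hl => hl.mono fun a _ b _ h => hG h
  have K : ∀ {α β : ℕ} {X Y : Finset V}, X ⊆ U → Y ⊆ U → (∀ x ∈ X, α ≤ (X.filter (G'.Adj x)).card) →
      (∀ y ∈ Y, β ≤ (Y.filter (G'.Adj y)).card) → k ≤ α + β + 1 →
      ∀ x ∈ X, ∀ y ∈ Y, x ≠ y → G'.Adj x y := by
    intro α β X Y hXU hYU hX hY hαβ x hx y hy hxy
    have np := no_pair (fun a b => G'.adj_symm) (fun a => G'.irrefl) hmax.prop hX hY hαβ
      (fun x hx y hy => hc' x (hXU hx) y (hYU hy)) (Fintype.card V + 1) x hx y hy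
    have : NoP (G' ⊔ SimpleGraph.edge x y).Adj k := fun u v l c hn => by
      by_contra hl
      rcases split_edge (R := G'.Adj) (x := x) (y := y) (c.mono fun a _ b _ h => by
        rw [SimpleGraph.sup_adj, SimpleGraph.edge_adj] at h; tauto) hn with c | ⟨A, B, p, q, rfl, c1, c2, e⟩
      · exact hl (hmax.prop _ _ _ c hn)
      · have c3 := c1.rev fun a b => G'.adj_symm
        have n3 : (A.reverse ++ B).Nodup := hn.perm ((reverse_perm _).symm.append_right _)
        rw [length_append] at hl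
        rcases e with ⟨rfl, rfl⟩ | ⟨rfl, rfl⟩
        · exact np _ _ _ _ c3 c2 n3 (by simp; omega) (by omega)
        · exact np _ _ _ _ c2 c3 (n3.perm perm_append_comm) (by simp; omega) (by omega)
    exact hmax.le_of_ge this le_sup_left (by simp [SimpleGraph.edge_adj, hxy])
  suffices h : ∃ a h, a ≤ h ∧ a + h ≤ k ∧
      ∀ Z ⊆ U, h < Z.card → ∃ v ∈ Z, (Z.filter (G'.Adj v)).card ≤ a by
    obtain ⟨a, h, h1, h2, h3⟩ := h
    exact ⟨a, h, h1, h2, fun Z hZ hh => (h3 Z hZ hh).imp fun v hv => ⟨hv.1, le_trans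
      (Finset.card_le_card (Finset.monotone_filter_right _ fun w _ hw => hG hw)) hv.2⟩⟩
  obtain ⟨H, hH, hHm⟩ := (U.powerset.filter fun X => ∀ x ∈ X, k / 2 ≤ (X.filter (G'.Adj x)).card
    ).exists_max_image Finset.card ⟨∅, by simp⟩
  simp only [Finset.mem_filter, Finset.mem_powerset, and_imp] at hH hHm
  rcases H.eq_empty_or_nonempty with rfl | hne
  · refine ⟨k / 2 - 1, k / 2 - 1, le_rfl, by omega, fun Z hZ hh => ?_⟩
    by_contra hx
    push Not at hx
    have := hHm Z hZ fun x h => by have := hx x h; omega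
    simp only [Finset.card_empty] at this
    omega
  · have cl := K hH.1 hH.1 hH.2 hH.2 (by omega)
    obtain ⟨u, v, l, c, n, e⟩ := clique_path cl hne
    have h1 := hmax.prop _ _ _ c n
    have h2 : ∀ x ∈ H, (H.filter (G'.Adj x)).card + 1 = H.card := fun x hx => by
      rw [← Finset.card_erase_add_one hx]
      congr 2
      ext y
      simp only [Finset.mem_filter, Finset.mem_erase]
      exact ⟨fun h => ⟨h.2.ne', h.1⟩, fun h => ⟨h.2, cl x hx y h.2 h.1.symm⟩⟩
    obtain ⟨x0, hx0⟩ := hne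
    have h3 := h2 x0 hx0
    have h4 := hH.2 x0 hx0
    refine ⟨k - H.card - 1, H.card, by omega, by omega, fun Z hZ hh => ?_⟩
    by_contra hx
    push Not at hx
    obtain ⟨y, hy, hyH⟩ := Finset.exists_mem_notMem_of_card_lt_card hh
    have h5 := K (α := H.card - 1) (β := k - H.card) hH.1 hZ
      (fun x h => by have := h2 x h; omega) (fun x h => by have := hx x h; omega) (by omega)
    have := hHm (insert y H) (Finset.insert_subset (hZ hy) hH.1) fun x hx => by
      rcases Finset.mem_insert.1 hx with rfl | hx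
      · refine le_trans (by omega : _ ≤ H.card) (Finset.card_le_card fun w hw => ?_)
        exact Finset.mem_filter.2 ⟨Finset.mem_insert_of_mem hw,
          (h5 w hw x hy (by rintro rfl; exact hyH hw)).symm⟩
      · exact (hH.2 x hx).trans (Finset.card_le_card
          (Finset.filter_subset_filter _ (Finset.subset_insert _ _)))
    rw [Finset.card_insert_of_notMem hyH] at this
    omega

end Pool.Agent.P.MP_bc5e1d_co
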