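import Pool.Agent.P.MP_bc5e1d_co.Spec

/-! Short odd cycles at the exact spectral threshold. -/

namespace Pool.Agent.P.MP_bc5e1d_co

open Finset Classical

variable {V : Type} [DecidableEq V] {G : SimpleGraph V}

theorem greedy {R : V → V → Prop} {Z : Finset V} {L : ℕ} (h : ∀ v ∈ Z, L ≤ (Z.filter (R v)).card)
    {v : V} (hv : v ∈ Z) (m : ℕ) (hm : m < L) :
    ∃ w l, Ch R v w l ∧ l.Nodup ∧ (∀ x ∈ l, x ∈ Z) ∧ l.length = m + 1 := by
  induction m with
  | zero => exact ⟨v, [v], Ch.one v, by simp, by simpa using hv, rfl⟩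
  | succ m ih =>
    obtain ⟨w, l, c, d, e, f⟩ := ih (by omega)
    obtain ⟨z, hz, hz'⟩ := exists_mem_notMem_of_card_lt_card (s := l.toFinset) (t := Z.filter (R w))
      ((List.toFinset_card_le l).trans_lt (by have := h w (e w c.last_mem); omega))
    refine ⟨z, l ++ [z], c.app (mem_filter.1 hz).2 (Ch.one z), List.nodup_append.2 ⟨d, by simp, ?_⟩,
      fun x hx => ?_, by simp [f]⟩
    · rintro x hx _ hy rfl
      exact hz' (List.mem_toFinset.2 (List.mem_singleton.1 hy ▸ hx))
    · rcases List.mem_append.1 hx with hx | hx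
      exacts [e x hx, List.mem_singleton.1 hx ▸ (mem_filter.1 hz).1]

omit [DecidableEq V] in
theorem parity {A : Finset V} {v w : V} {l : List V}
    (c : Ch (fun a b => G.Adj a b ∧ (a ∈ A ↔ b ∉ A)) v w l) :
    (v ∈ A ↔ w ∈ A) ↔ l.length % 2 = 1 := by
  induction c with
  | one u => simp
  | @cons u w v l r _ ih =>
    have := r.2
    have e : (u :: l).length % 2 = 1 ↔ ¬ l.length % 2 = 1 := by rw [List.length_cons]; omega
    rw [e]
    tauto

theorem dense (L : ℕ) (A : Finset V) (h : 2 * L * A.card < ∑ u ∈ A, (A.filter (G.Adj u)).card) :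
    ∃ Z ⊆ A, Z.Nonempty ∧ ∀ v ∈ Z, L ≤ (Z.filter (G.Adj v)).card := by
  induction A using Finset.strongInduction with
  | H A ih =>
    by_cases h1 : ∀ v ∈ A, L ≤ (A.filter (G.Adj v)).card
    · exact ⟨A, Subset.rfl, nonempty_iff_ne_empty.2 (by rintro rfl; simp at h), h1⟩
    push Not at h1
    obtain ⟨v, hv, h2⟩ := h1
    obtain ⟨Z, h3, h4⟩ := ih (A.erase v) (erase_ssubset hv) (by
      have a1 : ∑ u ∈ A.erase v, (A.filter (G.Adj u)).card = ∑ u ∈ A.erase v,
          (((A.erase v).filter (G.Adj u)).card + if G.Adj v u then 1 else 0) :=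
        sum_congr rfl fun u _ => by
          rw [card_filter, card_filter, ← sum_erase_add _ _ hv]; simp only [G.adj_comm]
      have a2 := card_le_card (filter_subset_filter (G.Adj v) (erase_subset v A))
      rw [sum_add_distrib] at a1
      rw [card_filter] at a2
      rw [← sum_erase_add _ _ hv, a1, ← card_erase_add_one hv, mul_add] at h
      omega)
    exact ⟨Z, h3.trans (erase_subset _ _), h4⟩

theorem odd_path {W : Finset V} {μ : ℝ} {x : V → ℝ} (hp : Per G W μ x)
    (h : ((W.card ^ 2 / 4 : ℕ) : ℝ) < μ ^ 2) {L j : ℕ} (hj : 1 ≤ j) (hL : 2 * j ≤ L)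
    (hN : 100 * L ≤ W.card) : ∃ z ∈ W, ∃ u v l, Ch G.Adj u v l ∧ l.Nodup ∧ (∀ y ∈ l, y ∈ W) ∧
      z ∉ l ∧ G.Adj z u ∧ G.Adj z v ∧ l.length = 2 * j := by
  obtain ⟨z, hz, hm⟩ := W.exists_max_image x (card_pos.1 (by omega))
  have z0 : 0 < x z := by
    by_contra h0
    have := hp.norm
    rw [sum_eq_zero fun v hv => by
      rw [le_antisymm ((hm v hv).trans (not_lt.1 h0)) (hp.nonneg v)]; simp] at this
    exact zero_ne_one this
  set A := W.filter (G.Adj z) with hA
  have sA : A ⊆ W := filter_subset _ _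
  have aA : ∀ u ∈ A, G.Adj z u := fun u hu => (mem_filter.1 hu).2
  have zA : z ∉ A := fun h => (aA z h).ne rfl
  have a0 : W.card ^ 2 / 4 < ∑ u ∈ A, (W.filter (G.Adj u)).card := by
    have : μ ^ 2 * x z ≤ (∑ u ∈ A, (W.filter (G.Adj u)).card : ℕ) * x z := by
      rw [sq, mul_assoc, ← hp.eig z hz, mul_sum, Nat.cast_sum, sum_mul]
      refine sum_le_sum fun u hu => ?_
      rw [← hp.eig u (sA hu), ← nsmul_eq_mul]
      exact sum_le_card_nsmul _ _ _ fun w hw => hm w (mem_filter.1 hw).1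
    exact_mod_cast h.trans_le (le_of_mul_le_mul_right this z0)
  set B := W \ A with hB
  have cN : B.card + A.card = W.card := card_sdiff_add_card_eq_card sA
  have a1 : ∑ u ∈ A, (W.filter (G.Adj u)).card + ∑ u ∈ A, (B.filter fun w => ¬ G.Adj u w).card =
      ∑ u ∈ A, (A.filter (G.Adj u)).card + A.card * B.card := by
    rw [← smul_eq_mul, ← sum_const, ← sum_add_distrib, ← sum_add_distrib]
    refine sum_congr rfl fun u _ => ?_
    have := card_filter_add_card_filter_not (s := B) (G.Adj u)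
    have e : (W.filter (G.Adj u)).card = (B.filter (G.Adj u)).card + (A.filter (G.Adj u)).card := by
      simp only [card_filter]; exact (sum_sdiff sA).symm
    omega
  have a2 : ∑ w ∈ B, (A.filter fun u => ¬ G.Adj w u).card =
      ∑ u ∈ A, (B.filter fun w => ¬ G.Adj u w).card := by
    simp only [card_filter]
    rw [sum_comm]
    exact sum_congr rfl fun u _ => sum_congr rfl fun y _ => by simp only [G.adj_comm]
  set E := ∑ u ∈ A, (A.filter (G.Adj u)).card with hE
  set M := ∑ u ∈ A, (B.filter fun w => ¬ G.Adj u w).card with hM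
  by_cases c1 : 2 * L * A.card < E
  · obtain ⟨Z, s, ⟨u, hu⟩, d⟩ := dense L A c1
    obtain ⟨v, l, c, n, m, f⟩ := greedy d hu (2 * j - 1) (by omega)
    exact ⟨z, hz, u, v, l, c, n, fun y hy => sA (s (m y hy)), fun h => zA (s (m z h)), aA u (s hu),
      aA v (s (m v c.last_mem)), by omega⟩
  set N := W.card
  have b1 : 4 * (A.card * B.card) ≤ N ^ 2 := by
    rw [← cN]; nlinarith [sq_nonneg ((A.card : ℤ) - B.card)]
  have b2 : E ≤ 2 * (L * N) := by nlinarith
  have b3 : 100 * (L * N) ≤ N ^ 2 := by nlinarith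
  have b4 : 200 ≤ L * N := by nlinarith
  have b5 : N ≤ 3 * A.card := by
    by_contra hc
    have : 36 * (A.card * B.card) ≤ 8 * N ^ 2 := by
      obtain ⟨d, hd⟩ := Nat.exists_eq_add_of_le (show 2 * A.card ≤ B.card by omega)
      rw [← cN, hd]; nlinarith
    omega
  have b6 : N ≤ 3 * B.card := by
    by_contra hc
    have : 36 * (A.card * B.card) ≤ 8 * N ^ 2 := by
      obtain ⟨d, hd⟩ := Nat.exists_eq_add_of_le (show 2 * B.card ≤ A.card by omega)
      rw [← cN, hd]; nlinarith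
    omega
  have bad : ∀ P Q : Finset V, N ≤ 3 * Q.card →
      (P.filter fun u => 6 * (Q.filter (G.Adj u)).card < N).card * N ≤
        6 * ∑ u ∈ P, (Q.filter fun w => ¬ G.Adj u w).card := fun P Q hQ => by
    rw [mul_sum]
    refine (card_nsmul_le_sum _ _ _ fun u hu => ?_).trans
      (sum_le_sum_of_subset (filter_subset _ _))
    have := card_filter_add_card_filter_not (s := Q) (G.Adj u)
    have := (mem_filter.1 hu).2
    omega
  have d1 := bad A B b6
  have d2 := bad B A b5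
  rw [a2] at d2
  set A' := A.filter fun u => 6 * (B.filter (G.Adj u)).card < N
  set B' := B.filter fun u => 6 * (A.filter (G.Adj u)).card < N
  have d3 : A'.card < 12 * L := Nat.lt_of_mul_lt_mul_right (a := N) (by rw [mul_assoc]; omega)
  have d4 : B'.card < 12 * L := Nat.lt_of_mul_lt_mul_right (a := N) (by rw [mul_assoc]; omega)
  have : ∃ u ∈ A, ∃ u' ∈ A, G.Adj u u' ∧ u' ∉ A' := by
    by_contra hx
    push Not at hx
    have e1 : E ≤ A'.card * A'.card := by
      rw [hE, ← sum_subset (filter_subset _ A : A' ⊆ A) fun u hu hu' => card_eq_zero.2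
        (filter_eq_empty_iff.2 fun w hw r => hu' (hx w hw u hu r.symm))]
      exact sum_le_card_nsmul _ _ _ fun u hu => card_le_card fun w hw =>
        hx u (mem_filter.1 hu).1 w (mem_filter.1 hw).1 (mem_filter.1 hw).2
    have e2 : A'.card * N < A'.card * (6 * A'.card) := by
      rw [mul_left_comm]; omega
    have := Nat.lt_of_mul_lt_mul_left e2
    omega
  obtain ⟨u, hu, u', hu', r, hg⟩ := this
  have nB : ∀ y ∈ B, y ∉ A := fun y hy => (mem_sdiff.1 hy).2
  obtain ⟨v, l, c, n, m, f⟩ := greedy (R := fun a b => G.Adj a b ∧ (a ∈ A ↔ b ∉ A)) (L := L)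
    (Z := ((A \ A') ∪ (B \ B')) \ {u, z}) (v := u') (fun y hy => by
      have k2 := card_le_two (a := u) (b := z)
      rcases mem_union.1 (mem_sdiff.1 hy).1 with hy | hy
      · have g1 : ¬ 6 * (B.filter (G.Adj y)).card < N := fun h =>
          (mem_sdiff.1 hy).2 (mem_filter.2 ⟨(mem_sdiff.1 hy).1, h⟩)
        have g2 := le_card_sdiff B' (B.filter (G.Adj y))
        have g3 := le_card_sdiff {u, z} (B.filter (G.Adj y) \ B')
        refine le_trans (by omega : L ≤ ((B.filter (G.Adj y) \ B') \ {u, z}).card)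
          (card_le_card fun w hw => ?_)
        obtain ⟨w1, w2⟩ := mem_sdiff.1 hw
        obtain ⟨w3, w4⟩ := mem_sdiff.1 w1
        obtain ⟨w5, w6⟩ := mem_filter.1 w3
        refine (@mem_filter _ _ (_) _ _).2 ?_
        exact ⟨mem_sdiff.2 ⟨mem_union_right _ (mem_sdiff.2 ⟨w5, w4⟩), w2⟩, w6,
          iff_of_true (mem_sdiff.1 hy).1 (nB w w5)⟩
      · have g1 : ¬ 6 * (A.filter (G.Adj y)).card < N := fun h =>
          (mem_sdiff.1 hy).2 (mem_filter.2 ⟨(mem_sdiff.1 hy).1, h⟩)
        have g2 := le_card_sdiff A' (A.filter (G.Adj y))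
        have g3 := le_card_sdiff {u, z} (A.filter (G.Adj y) \ A')
        refine le_trans (by omega : L ≤ ((A.filter (G.Adj y) \ A') \ {u, z}).card)
          (card_le_card fun w hw => ?_)
        obtain ⟨w1, w2⟩ := mem_sdiff.1 hw
        obtain ⟨w3, w4⟩ := mem_sdiff.1 w1
        obtain ⟨w5, w6⟩ := mem_filter.1 w3
        refine (@mem_filter _ _ (_) _ _).2 ?_
        exact ⟨mem_sdiff.2 ⟨mem_union_left _ (mem_sdiff.2 ⟨w5, w4⟩), w2⟩, w6,
          iff_of_false (nB y (mem_sdiff.1 hy).1) (not_not.2 w5)⟩)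
    (mem_sdiff.2 ⟨mem_union_left _ (mem_sdiff.2 ⟨hu', hg⟩), by
      simp only [mem_insert, mem_singleton, not_or]
      exact ⟨r.ne', (aA u' hu').ne'⟩⟩) (2 * j - 2) (by omega)
  have m1 : ∀ y ∈ l, y ∈ W ∧ y ≠ u ∧ y ≠ z := fun y hy => by
    obtain ⟨k1, k2⟩ := mem_sdiff.1 (m y hy)
    simp only [mem_insert, mem_singleton, not_or] at k2
    refine ⟨?_, k2⟩
    rcases mem_union.1 k1 with k | k
    exacts [sA (mem_sdiff.1 k).1, (mem_sdiff.1 (mem_sdiff.1 k).1).1]
  refine ⟨z, hz, u, v, u :: l, Ch.cons r (c.mono fun _ _ _ _ h => h.1),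
    List.nodup_cons.2 ⟨fun h => (m1 u h).2.1 rfl, n⟩,
    List.forall_mem_cons.2 ⟨sA hu, fun y hy => (m1 y hy).1⟩, fun h => ?_, aA u hu,
    aA v (((parity c).2 (by omega)).1 hu'), by simp; omega⟩
  rcases List.mem_cons.1 h with h | h
  exacts [(aA u hu).ne h, (m1 z h).2.2 rfl]

end Pool.Agent.P.MP_bc5e1d_co
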