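import Pool.Agent.P.MP_bc5e1d_co.Rob
import Pool.Agent.P.MP_bc5e1d_co.Odd
import Pool.Agent.P.MP_bc5e1d_co.Dom

/-! All cycle lengths up to `(3 - √5) n / 2 - K` above the spectral threshold. -/

namespace Pool.Agent.P.MP_bc5e1d_co

open Finset Classical

variable {V : Type} [Fintype V] [DecidableEq V] {G : SimpleGraph V}

theorem pick {n K : ℕ} (hn : Fintype.card V = n) (hK : 3660 * K + 4000 ≤ n)
    (h : ((n ^ 2 / 4 : ℕ) : ℝ) < lam G univ ^ 2) : ∃ W : Finset V, Rob G n K W ∧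
      ((W.card ^ 2 / 4 : ℕ) : ℝ) < lam G W ^ 2 ∧ n / 2 - 1 - ((n : ℝ) - W.card) / 10 ≤ lam G W := by
  obtain ⟨W, -, hm⟩ := (univ : Finset (Finset V)).exists_max_image
    (fun W => lam G W - W.card / 10) univ_nonempty
  replace hm : ∀ A : Finset V, lam G A - A.card / 10 ≤ lam G W - W.card / 10 :=
    fun A => hm A (mem_univ _)
  have hK' : (3660 : ℝ) * K + 4000 ≤ n := by exact_mod_cast hK
  have K0 : (0 : ℝ) ≤ K := Nat.cast_nonneg _
  have cW : W.card ≤ n := hn ▸ card_le_univ W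
  have cW' : (W.card : ℝ) ≤ n := by exact_mod_cast cW
  have W0 : (0 : ℝ) ≤ W.card := Nat.cast_nonneg _
  have h1 : (n : ℝ) / 2 - 2 / 5 < lam G univ := by
    have a : n ^ 2 ≤ 4 * (n ^ 2 / 4) + 3 := by omega
    have b : (n : ℝ) ^ 2 ≤ 4 * ((n ^ 2 / 4 : ℕ) : ℝ) + 3 := by exact_mod_cast a
    refine lt_of_pow_lt_pow_left₀ 2 (lam_nonneg _) ?_
    nlinarith
  have h2 := hm univ
  rw [card_univ, hn] at h2
  have hne : W.Nonempty := by
    rw [← card_pos, ← Nat.cast_pos (α := ℝ)]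
    linarith [lam_le_card (G := G) W]
  obtain ⟨x, hx⟩ := lam_per (G := G) hne
  have dg : ∀ F : Finset V, F.card ≤ K → ∀ v ∈ W, n ≤ 61 * ((W \ F).filter (G.Adj v)).card := by
    intro F hF v hv
    have a1 := hx.del (erase_subset v W)
    rw [sdiff_erase_self hv, sum_singleton] at a1
    have a2 := hm (W.erase v)
    rw [card_erase_of_mem hv, Nat.cast_sub (card_pos.2 hne), Nat.cast_one] at a2
    have a3 := hx.entry hv
    have a4 : (W.filter (G.Adj v)).card ≤ ((W \ F).filter (G.Adj v)).card + F.card :=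
      (card_le_card fun u hu => by
        by_cases hu' : u ∈ F
        · exact mem_union_right _ hu'
        · exact mem_union_left _ (mem_filter.2 ⟨mem_sdiff.2 ⟨(mem_filter.1 hu).1, hu'⟩,
            (mem_filter.1 hu).2⟩)).trans (card_union_le _ _)
    have a5 : ((W.filter (G.Adj v)).card : ℝ) ≤ ((W \ F).filter (G.Adj v)).card + K := by
      exact_mod_cast a4.trans (by omega)
    have a6 := mul_le_mul_of_nonneg_left (show 1 / 10 ≤ 2 * lam G W * x v ^ 2 by linarith)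
      (lam_nonneg (G := G) W)
    have a7 : (n : ℝ) ≤ 61 * ((W \ F).filter (G.Adj v)).card := by
      rw [mul_pow] at a3
      nlinarith
    exact_mod_cast a7
  refine ⟨W, ⟨by omega, cW, dg, fun F hF A hA hAn hAB => ?_⟩, ?_, by linarith⟩
  · by_contra hne'
    obtain ⟨b, hb⟩ : ((W \ F) \ A).Nonempty :=
      sdiff_nonempty.2 fun hs => hne' (Subset.antisymm hA hs)
    obtain ⟨a, ha⟩ := hAn
    have d1 := lam_del (G := G) (sdiff_subset (s := W) (t := F)) cW' (by linarith)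
    have d2 : ((W \ (W \ F)).card : ℝ) ≤ K := by
      exact_mod_cast (card_le_card fun u hu => by
        by_contra hu'
        exact (mem_sdiff.1 hu).2 (mem_sdiff.2 ⟨(mem_sdiff.1 hu).1, hu'⟩)).trans hF
    have d3 := lam_split (G := G) hA hAB
    have d4 := card_sdiff_add_card_eq_card hA
    have d5 := card_le_card (sdiff_subset (s := W) (t := F))
    have d6 : (((W \ F) \ A).card : ℝ) + A.card ≤ W.card := by exact_mod_cast d4.trans_le d5
    have e1 := (dg F hF a (mem_sdiff.1 (hA ha)).1).trans (Nat.mul_le_mul_left _ (card_le_card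
      (t := A) fun u hu => by
        by_contra hu'
        exact hAB a ha u (mem_sdiff.2 ⟨(mem_filter.1 hu).1, hu'⟩) (mem_filter.1 hu).2))
    have e2 := (dg F hF b (mem_sdiff.1 (mem_sdiff.1 hb).1).1).trans (Nat.mul_le_mul_left _
      (card_le_card (t := (W \ F) \ A) fun u hu => mem_sdiff.2 ⟨(mem_filter.1 hu).1, fun hu' =>
        hAB u hu' b hb (mem_filter.1 hu).2.symm⟩))
    have e3 : (n : ℝ) ≤ 61 * A.card := by exact_mod_cast e1
    have e4 : (n : ℝ) ≤ 61 * ((W \ F) \ A).card := by exact_mod_cast e2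
    rcases le_max_iff.1 d3 with d | d
    · linarith [hm A]
    · linarith [hm ((W \ F) \ A)]
  · rcases cW.eq_or_lt with e | e
    · rwa [eq_univ_of_card W (e.trans hn.symm), card_univ, hn]
    · have a : (W.card : ℝ) + 1 ≤ n := by exact_mod_cast e
      have b : (4 : ℝ) * ((W.card ^ 2 / 4 : ℕ) : ℝ) ≤ (W.card : ℝ) ^ 2 := by
        exact_mod_cast Nat.mul_div_le _ _
      have c : (W.card : ℝ) / 2 < lam G W := by linarith
      nlinarith

theorem num_main {c n d E μ N : ℝ} (hc : c ^ 2 - 3 / 2 * c + 1 / 4 = 0) (c1 : 19 / 100 ≤ c)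
    (c2 : c ≤ 191 / 1000) (hE : 0 < E) (hd : 0 ≤ d) (hd' : d ≤ 3 / 5 * n) (hn : 100 * E ≤ n)
    (hμ : n / 2 - d / 10 - E ≤ μ) (hN : N ≤ n - d) :
    (c * n - 3 * E) * (μ + N - (c * n - 3 * E)) < μ ^ 2 := by
  obtain ⟨t, ht, rfl⟩ : ∃ t, 0 ≤ t ∧ μ = n / 2 - d / 10 - E + t := ⟨_, sub_nonneg.2 hμ, by ring⟩
  have n0 : 0 < n := by linarith
  have a1 := mul_le_mul_of_nonneg_right c1 n0.le
  have a2 := mul_le_mul_of_nonneg_right c2 n0.le
  have a3 := mul_nonneg (show 0 ≤ c * n - 3 * E by linarith) (sub_nonneg.2 hN)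
  have a4 := mul_nonneg ht (show 0 ≤ n - d / 5 - 2 * E - (c * n - 3 * E) by linarith)
  have a5 := mul_nonneg hd (show 0 ≤ 11 / 10 * (c * n) - n / 10 by linarith)
  have a6 := mul_pos hE (show 0 < 3 * (3 / 2 * n - 2 * (c * n) - 11 / 10 * d + 2 * E) - n + c * n by
    linarith)
  have a7 : n ^ 2 * (c ^ 2 - 3 / 2 * c + 1 / 4) = 0 := by rw [hc, mul_zero]
  nlinarith [sq_nonneg t, sq_nonneg (d / 10 + E)]

theorem c_facts : ((3 - √5) / 4 : ℝ) ^ 2 - 3 / 2 * ((3 - √5) / 4) + 1 / 4 = 0 ∧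
    (19 / 100 : ℝ) ≤ (3 - √5) / 4 ∧ (3 - √5) / 4 ≤ (191 / 1000 : ℝ) := by
  have h : √5 ^ 2 = (5 : ℝ) := Real.sq_sqrt (by norm_num)
  have h1 : √5 ≤ (224 / 100 : ℝ) := Real.sqrt_le_iff.2 ⟨by norm_num, by norm_num⟩
  have h2 : (2236 / 1000 : ℝ) ≤ √5 := Real.le_sqrt_of_sq_le (by norm_num)
  exact ⟨by linarith, by linarith, by linarith⟩

theorem cycles {n K : ℕ} (hn : Fintype.card V = n) (hK : 5000000 ≤ K)
    (hN : 3 * (61 ^ 300 * (K + 1)) ≤ n) (h : ((n ^ 2 / 4 : ℕ) : ℝ) < lam G univ ^ 2) {l : ℕ}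
    (h3 : 3 ≤ l) (hl : (l : ℝ) ≤ (3 - √5) / 2 * n - 6 * (6 * K + 1)) : Cyc G l := by
  have hp : 61 ^ 2 * (K + 1) ≤ 61 ^ 300 * (K + 1) :=
    Nat.mul_le_mul_right _ (Nat.pow_le_pow_right (by norm_num) (by norm_num))
  obtain ⟨W, hR, hW, hμ⟩ := pick (G := G) (K := K) hn (by omega) h
  have hK' : (11163 : ℝ) * (K + 1) ≤ n := by exact_mod_cast (show 11163 * (K + 1) ≤ n by omega)
  have K0 : (0 : ℝ) ≤ K := Nat.cast_nonneg _
  have cW : (W.card : ℝ) ≤ n := by exact_mod_cast hR.card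
  have W0 : (0 : ℝ) ≤ W.card := Nat.cast_nonneg _
  have lW := lam_le_card (G := G) W
  have big : n ≤ 3 * W.card := by exact_mod_cast (show (n : ℝ) ≤ 3 * W.card by linarith)
  have hM : 61 ^ 300 * (K + 1) ≤ W.card := by omega
  obtain ⟨x, hx⟩ := lam_per (G := G) (W := W) (card_pos.1 (by omega))
  have od := fun j h1 h2 => odd_path hx hW (L := 600) (j := j) h1 h2 (by omega)
  by_cases h6 : l ≤ 600
  · rcases Nat.even_or_odd' l with ⟨m, rfl | rfl⟩
    · exact hR.even (by omega) hM (by omega) (by omega)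
    · obtain ⟨z, -, u, v, p, c, d, -, e, r1, r2, f⟩ := od m (by omega) (by omega)
      obtain ⟨w, q, a, b⟩ := cycle_of_ch (Ch.cons r1 c) (List.nodup_cons.2 ⟨e, d⟩) r2.symm
        (by simp; omega)
      exact ⟨w, q, a, by simp [b, f]⟩
  obtain ⟨z, hz, u, v, p, c, -, e, -, r1, r2, f⟩ := od 1 le_rfl (by omega)
  have uv : G.Adj u v := by
    cases c with
    | one => simp at f
    | cons r c =>
      cases c with
      | one => exact r
      | cons _ c => obtain ⟨t, rfl⟩ := c.head; simp at f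
  obtain ⟨S, hS, cl⟩ := hR.close hK hM hz (e v c.last_mem) (e u c.head_mem) r2 r1 uv
  have d1 := lam_del (G := G) (sdiff_subset (s := W) (t := S)) cW (by linarith)
  have d2 : ((W \ (W \ S)).card : ℝ) ≤ K := by
    exact_mod_cast (card_le_card fun u hu => by
      by_contra hu'
      exact (mem_sdiff.1 hu).2 (mem_sdiff.2 ⟨(mem_sdiff.1 hu).1, hu'⟩)).trans (hS.trans hK)
  have d3 : ((W \ S).card : ℝ) ≤ W.card := by exact_mod_cast card_le_card sdiff_subset
  obtain ⟨c1, c2, c3⟩ := c_facts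
  have d4 : ((l - 570 : ℕ) : ℝ) ≤ l := by exact_mod_cast Nat.sub_le _ _
  have d5 := mul_le_mul_of_nonneg_right c3 (W0.trans cW)
  obtain ⟨a, b, q, q1, q2, q3, q4⟩ := lam_path (G := G) (U := W \ S) (k := l - 570) (by omega)
    (s := (3 - √5) / 4 * n - 3 * (6 * K + 1)) (by linarith) (by linarith)
    (fun x hx y hy => by
      obtain ⟨l, a, -, b, -⟩ := hR.short (hS.trans hK) hx hy
      exact ⟨l, a, b⟩)
    (num_main (d := n - W.card) c1 c2 c3 (by linarith) (by linarith) (by linarith) (by linarith)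
      (by linarith) (by linarith))
  obtain ⟨w, q', t1, t2, t3⟩ := q1.take (m := l - 570) (by omega) q4
  have := cl a w q' t1 (q2.sublist t2) fun x hx => q3 x (t2.subset hx)
  rwa [t3, Nat.sub_add_cancel (by omega)] at this

end Pool.Agent.P.MP_bc5e1d_co
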