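import Mathlib

/-! Walks and paths as lists. -/

namespace Pool.Agent.P.MP_bc5e1d_co

open List

variable {V : Type} {R : V → V → Prop}

/-- `l` is the vertex list of a walk from `u` to `v`. -/
inductive Ch (R : V → V → Prop) : V → V → List V → Prop
  | one (u : V) : Ch R u u [u]
  | cons {u w v : V} {l : List V} : R u w → Ch R w v l → Ch R u v (u :: l)

theorem Ch.head {u v : V} {l : List V} (h : Ch R u v l) : ∃ t, l = u :: t := by
  cases h <;> exact ⟨_, rfl⟩

theorem Ch.last {u v : V} {l : List V} (h : Ch R u v l) : ∃ t, l = t ++ [v] := by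
  induction h with
  | one u => exact ⟨[], rfl⟩
  | @cons u w v l _ _ ih => obtain ⟨t, rfl⟩ := ih; exact ⟨u :: t, rfl⟩

theorem Ch.head_mem {u v : V} {l : List V} (h : Ch R u v l) : u ∈ l := by
  obtain ⟨t, rfl⟩ := h.head; simp

theorem Ch.last_mem {u v : V} {l : List V} (h : Ch R u v l) : v ∈ l := by
  obtain ⟨t, rfl⟩ := h.last; simp

theorem Ch.ne_nil {u v : V} {l : List V} (h : Ch R u v l) : l ≠ [] := ne_nil_of_mem h.head_mem

theorem Ch.mono {S : V → V → Prop} {u v : V} {l : List V} (h : Ch R u v l)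
    (hS : ∀ a ∈ l, ∀ b ∈ l, R a b → S a b) : Ch S u v l := by
  induction h with
  | one u => exact Ch.one u
  | cons r h ih =>
    exact Ch.cons (hS _ (by simp) _ (by simp [h.head_mem]) r)
      (ih fun a ha b hb => hS a (by simp [ha]) b (by simp [hb]))

theorem Ch.app {u v u' v' : V} {l l' : List V} (h : Ch R u v l) (r : R v u') (h' : Ch R u' v' l') :
    Ch R u v' (l ++ l') := by
  induction h with
  | one u => exact Ch.cons r h'
  | cons r' _ ih => exact Ch.cons r' (ih r)

theorem Ch.join {u v v' : V} {l l' : List V} (h : Ch R u v l) (h' : Ch R v v' (v :: l')) :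
    Ch R u v' (l ++ l') := by
  cases h' with
  | one => simpa using h
  | cons r h' => exact h.app r h'

theorem Ch.rev (hs : ∀ a b, R a b → R b a) {u v : V} {l : List V} (h : Ch R u v l) :
    Ch R v u l.reverse := by
  induction h with
  | one u => exact Ch.one u
  | cons r _ ih => rw [reverse_cons]; exact ih.app (hs _ _ r) (Ch.one _)

theorem Ch.right {u v w : V} {A B : List V} (h : Ch R u v (A ++ w :: B)) : Ch R w v (w :: B) := by
  induction A generalizing u with
  | nil => obtain ⟨t, ht⟩ := h.head; obtain ⟨rfl, -⟩ := cons.inj ht; exact h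
  | cons a A ih =>
    generalize e : a :: A ++ w :: B = l at h
    cases h with
    | one => simp at e
    | cons r h => obtain ⟨-, rfl⟩ := cons.inj e; exact ih h

theorem Ch.left {u v w : V} {A B : List V} (h : Ch R u v (A ++ w :: B)) : Ch R u w (A ++ [w]) := by
  induction A generalizing u with
  | nil => obtain ⟨t, ht⟩ := h.head; obtain ⟨rfl, -⟩ := cons.inj ht; exact Ch.one _
  | cons a A ih =>
    generalize e : a :: A ++ w :: B = l at h
    cases h with
    | one => simp at e
    | cons r h => obtain ⟨rfl, rfl⟩ := cons.inj e; exact Ch.cons r (ih h)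

theorem Ch.rel {u v a b : V} {A B : List V} (h : Ch R u v (A ++ a :: b :: B)) : R a b := by
  have := h.right
  generalize e : a :: b :: B = l at this
  cases this with
  | one => simp at e
  | cons r h =>
    obtain ⟨-, rfl⟩ := cons.inj e
    obtain ⟨t, ht⟩ := h.head
    obtain ⟨rfl, -⟩ := cons.inj ht
    exact r

theorem Ch.take {u v : V} {l : List V} (h : Ch R u v l) {m : ℕ} (h1 : 1 ≤ m) (h2 : m ≤ l.length) :
    ∃ w l', Ch R u w l' ∧ l'.Sublist l ∧ l'.length = m := by
  obtain ⟨m, rfl⟩ : ∃ m', m = m' + 1 := ⟨m - 1, by omega⟩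
  have e : l = l.take m ++ l[m] :: l.drop (m + 1) := by simp
  refine ⟨l[m], l.take m ++ [l[m]], (e ▸ h : Ch R u v _).left, ?_, by simp; omega⟩
  simpa using take_sublist _ _

/-- Extension of a path by an adjacent vertex. -/
theorem Ch.ext {u v w : V} {l : List V} (h : Ch R u v l) (hn : l.Nodup) (r : R v w) :
    ∃ l', Ch R u w l' ∧ l'.Nodup ∧ l'.length ≤ l.length + 1 ∧ ∀ x ∈ l', x ∈ l ∨ x = w := by
  by_cases hw : w ∈ l
  · obtain ⟨A, B, rfl⟩ := append_of_mem hw
    exact ⟨A ++ [w], h.left, hn.sublist (by simp), by simp, fun x hx => by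
      simp only [mem_append, mem_cons, not_mem_nil, or_false] at hx ⊢; tauto⟩
  · exact ⟨l ++ [w], h.app r (Ch.one w), by simp [nodup_append, hn]; rintro a ha rfl; exact hw ha,
      by simp, fun x hx => by simpa using hx⟩

theorem bridge {S T : List V} (hd : ∀ x ∈ S, x ∉ T) {u v : V} {l : List V} (h : Ch R u v l)
    (hu : u ∈ S) (hv : v ∈ T) : ∃ a ∈ S, ∃ b ∈ T, ∃ M, Ch R a b (a :: (M ++ [b])) ∧ M.Nodup ∧
      (∀ x ∈ M, x ∉ S) ∧ ∀ x ∈ M, x ∉ T := by
  have key : (∃ a ∈ S, ∃ b ∈ T, ∃ M, Ch R a b (a :: (M ++ [b])) ∧ M.Nodup ∧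
      (∀ x ∈ M, x ∉ S) ∧ ∀ x ∈ M, x ∉ T) ∨ u ∈ T ∨ ∃ b ∈ T, ∃ M, Ch R u b (u :: (M ++ [b])) ∧
        (u :: M).Nodup ∧ (∀ x ∈ M, x ∉ S) ∧ ∀ x ∈ u :: M, x ∉ T := by
    clear hu
    induction h with
    | one u => exact Or.inr (Or.inl hv)
    | @cons u w v l r _ ih =>
      by_cases huT : u ∈ T
      · exact Or.inr (Or.inl huT)
      rcases ih hv with h1 | h1 | ⟨b, hb, M, c, n, s, t⟩
      · exact Or.inl h1
      · exact Or.inr (Or.inr ⟨w, h1, [], Ch.cons r (Ch.one w), by simp, by simp, by simpa using huT⟩)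
      by_cases hw : w ∈ S
      · exact Or.inl ⟨w, hw, b, hb, M, c, n.of_cons, s, fun x hx => t x (by simp [hx])⟩
      have s' : ∀ x ∈ w :: M, x ∉ S := by simpa [hw] using s
      by_cases hu : u ∈ w :: M
      · obtain ⟨C, M', e⟩ := append_of_mem hu
        rw [← cons_append, e, append_assoc] at c
        rw [e] at n s' t
        exact Or.inr (Or.inr ⟨b, hb, M', c.right, n.sublist (by simp),
          fun x hx => s' x (by simp [hx]), fun x hx => t x (mem_append_right _ hx)⟩)
      · exact Or.inr (Or.inr ⟨b, hb, w :: M, Ch.cons r c, nodup_cons.2 ⟨hu, n⟩, s',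
          fun x hx => by
            rcases mem_cons.1 hx with rfl | hx
            exacts [huT, t x hx]⟩)
  rcases key with h1 | h1 | ⟨b, hb, M, c, n, s, t⟩
  · exact h1
  · exact absurd h1 (hd u hu)
  · exact ⟨u, hu, b, hb, M, c, n.of_cons, s, fun x hx => t x (by simp [hx])⟩

theorem split_first (p : V → Prop) (T : List V) : ∃ Gp B, T = Gp ++ B ∧ (∀ g ∈ Gp, ¬ p g) ∧
    (B = [] ∨ ∃ b B', B = b :: B' ∧ p b) := by
  induction T with
  | nil => exact ⟨[], [], rfl, by simp, Or.inl rfl⟩
  | cons a T ih =>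
    by_cases ha : p a
    · exact ⟨[], a :: T, rfl, by simp, Or.inr ⟨a, T, rfl, ha⟩⟩
    · obtain ⟨Gp, B, rfl, h1, h2⟩ := ih
      exact ⟨a :: Gp, B, rfl, by simpa [ha] using h1, h2⟩

theorem split_last (p : V → Prop) {T : List V} (h : ∃ a ∈ T, p a) :
    ∃ A a B, T = A ++ a :: B ∧ p a ∧ ∀ g ∈ B, ¬ p g := by
  obtain ⟨Gp, B, e, h1, rfl | ⟨b, B', rfl, hb⟩⟩ := split_first p T.reverse
  · obtain ⟨a, ha, ha'⟩ := h
    exact absurd ha' (h1 a (by rw [append_nil] at e; rw [← e]; simpa using ha))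
  · exact ⟨B'.reverse, b, Gp.reverse, by simpa using congrArg reverse e, hb, by simpa using h1⟩

/-- A path ending at a prescribed vertex which covers all neighbours of the first vertex. -/
theorem endAt (hs : ∀ a b, R a b → R b a) {x e a : V} {A T : List V}
    (h : Ch R x e (A ++ a :: T)) : ∃ Gp B s, T = Gp ++ B ∧ (∀ g ∈ Gp, ¬ R x g) ∧
      Ch R s a (B.reverse ++ (A ++ [a])) := by
  obtain ⟨Gp, B, rfl, h1, rfl | ⟨b, B', rfl, hb⟩⟩ := split_first (R x) T
  · exact ⟨Gp, [], x, rfl, h1, h.left⟩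
  · refine ⟨Gp, b :: B', e, rfl, h1, Ch.app (v := b) (Ch.rev hs ?_) (hs _ _ hb) h.left⟩
    rw [← cons_append, ← append_assoc] at h
    exact h.right

theorem cnt_shift (p q : V → Bool) (a : V) (M : List V)
    (h : ∀ A x y B, a :: M = A ++ x :: y :: B → q x → ¬ p y) :
    M.countP p + (a :: M).dropLast.countP q ≤ M.length := by
  induction M generalizing a with
  | nil => simp
  | cons b M ih =>
    have h1 := ih b fun A x y B e => h (a :: A) x y B (by rw [e]; rfl)
    have h2 := h [] a b M rfl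
    rw [dropLast_cons_cons, countP_cons, countP_cons, length_cons]
    by_cases ha : q a <;> by_cases hb : p b <;> simp_all <;> omega

theorem card_le_countP [DecidableEq V] {X : Finset V} {p : V → Prop} [DecidablePred p] {l : List V}
    (h : ∀ x ∈ X, p x → x ∈ l) : (X.filter p).card ≤ l.countP p := by
  rw [countP_eq_length_filter]
  refine le_trans (Finset.card_le_card fun x hx => ?_) (toFinset_card_le _)
  simp only [Finset.mem_filter] at hx
  simp [h x hx.1 hx.2, hx.2]

theorem countP_le_card [DecidableEq V] {X : Finset V} {p : V → Bool} {l : List V} (hn : l.Nodup)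
    (h : ∀ x ∈ l, p x → x ∈ X) : l.countP p ≤ X.card := by
  rw [countP_eq_length_filter, ← toFinset_card_of_nodup (hn.filter _)]
  exact Finset.card_le_card fun x hx => by
    simp only [mem_toFinset, mem_filter] at hx
    exact h x hx.1 hx.2

theorem cycle_of_ch {G : SimpleGraph V} {u v : V} {l : List V} (h : Ch G.Adj u v l) (hn : l.Nodup)
    (r : G.Adj v u) (h3 : 3 ≤ l.length) :
    ∃ (w : V) (p : G.Walk w w), p.IsCycle ∧ p.length = l.length := by
  have key : ∀ {u v : V} {l : List V}, Ch G.Adj u v l → ∃ p : G.Walk u v, p.support = l := by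
    intro u v l h
    induction h with
    | one u => exact ⟨SimpleGraph.Walk.nil, rfl⟩
    | cons r _ ih => obtain ⟨p, rfl⟩ := ih; exact ⟨SimpleGraph.Walk.cons r p, rfl⟩
  obtain ⟨p, rfl⟩ := key h
  have hp : p.IsPath := SimpleGraph.Walk.IsPath.mk' hn
  rw [SimpleGraph.Walk.length_support] at h3
  refine ⟨v, SimpleGraph.Walk.cons r p, ?_, by simp⟩
  rw [SimpleGraph.Walk.cons_isCycle_iff]
  refine ⟨hp, fun he => ?_⟩
  have := hp.length_eq_one_of_mem_edges (by rwa [Sym2.eq_swap] at he)
  omega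

end Pool.Agent.P.MP_bc5e1d_co
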