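import Pool.Agent.P.MP_bc5e1d_co.Path
import Pool.Agent.P.MP_bc5e1d_co.Defs

/-! Robustly connected dense graphs: a reservoir of bounded size closes paths into cycles of
prescribed length. -/

namespace Pool.Agent.P.MP_bc5e1d_co

open Finset Classical

variable {V : Type} [DecidableEq V] {G : SimpleGraph V} {n K : ℕ} {W : Finset V}

/-- Linear minimum degree and connectivity after the removal of at most `K` vertices. -/
structure Rob (G : SimpleGraph V) (n K : ℕ) (W : Finset V) : Prop where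
  pos : 0 < n
  card : W.card ≤ n
  deg : ∀ F : Finset V, F.card ≤ K → ∀ v ∈ W, n ≤ 61 * ((W \ F).filter (G.Adj v)).card
  conn : ∀ F : Finset V, F.card ≤ K → ∀ A ⊆ W \ F, A.Nonempty →
    (∀ a ∈ A, ∀ b ∈ (W \ F) \ A, ¬ G.Adj a b) → A = W \ F

theorem Rob.short (h : Rob G n K W) {F : Finset V} (hF : F.card ≤ K) {u v : V} (hu : u ∈ W \ F)
    (hv : v ∈ W \ F) :
    ∃ l, Ch G.Adj u v l ∧ l.Nodup ∧ (∀ x ∈ l, x ∈ W \ F) ∧ l.length ≤ 187 := by
  let B : ℕ → Finset V := fun j => (W \ F).filter fun w =>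
    ∃ l, Ch G.Adj u w l ∧ l.Nodup ∧ (∀ x ∈ l, x ∈ W \ F) ∧ l.length ≤ j + 1
  have sub : ∀ j, B j ⊆ W \ F := fun j => filter_subset _ _
  have mono : ∀ {i j}, i ≤ j → B i ⊆ B j := fun hij w hw => by
    obtain ⟨h1, l, a, b, c, d⟩ := mem_filter.1 hw
    exact mem_filter.2 ⟨h1, l, a, b, c, by omega⟩
  have step : ∀ j, ∀ a ∈ B j, ∀ b ∈ W \ F, G.Adj a b → b ∈ B (j + 1) := fun j a ha b hb r => by
    obtain ⟨-, l, c, d, e, f⟩ := mem_filter.1 ha
    obtain ⟨l', c', d', f', e'⟩ := c.ext d r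
    exact mem_filter.2 ⟨hb, l', c', d', fun x hx => (e' x hx).elim (e x) fun h => h ▸ hb, by omega⟩
  have h0 : ∀ j, u ∈ B j := fun j =>
    mem_filter.2 ⟨hu, [u], Ch.one u, by simp, by simpa using hu, by simp⟩
  have key : ∀ i, B (3 * i) = W \ F ∨ i * n ≤ 61 * (B (3 * i)).card := by
    intro i
    induction i with
    | zero => simp
    | succ i ih =>
      by_cases hall : B (3 * (i + 1)) = W \ F
      · exact Or.inl hall
      have ne : ∀ j ≤ 3 * (i + 1), B j ≠ W \ F := fun j hj e =>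
        hall (Subset.antisymm (sub _) (e ▸ mono hj))
      have : ∃ w ∈ B (3 * i + 2), w ∉ B (3 * i + 1) := by
        by_contra hx
        push Not at hx
        exact ne (3 * i + 1) (by omega) (h.conn F hF _ (sub _) ⟨u, h0 _⟩ fun a ha b hb r =>
          (mem_sdiff.1 hb).2 (hx b (step _ a ha b (mem_sdiff.1 hb).1 r)))
      obtain ⟨w, w1, w2⟩ := this
      have a1 := h.deg F hF w (mem_sdiff.1 (sub _ w1)).1
      have a2 : (W \ F).filter (G.Adj w) ⊆ B (3 * (i + 1)) \ B (3 * i) := fun b hb =>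
        mem_sdiff.2 ⟨step _ w w1 b (mem_filter.1 hb).1 (mem_filter.1 hb).2, fun hb' =>
          w2 (step _ b hb' w (sub _ w1) (mem_filter.1 hb).2.symm)⟩
      have a3 := card_le_card a2
      have a4 := card_sdiff_add_card_eq_card (mono (show 3 * i ≤ 3 * (i + 1) by omega))
      have a5 := ih.resolve_left (ne _ (by omega))
      right
      rw [add_mul]
      omega
  rcases key 62 with e | e
  · exact (mem_filter.1 (e ▸ hv : v ∈ B (3 * 62))).2
  · have := (card_le_card ((sub (3 * 62)).trans sdiff_subset)).trans h.card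
    have := h.pos
    omega

theorem Rob.avg (h : Rob G n K W) {F U : Finset V} (hF : F.card ≤ K) (hU : U ⊆ W)
    (hne : U.Nonempty) : ∃ y ∈ W \ F, U.card ≤ 61 * (U.filter (G.Adj y)).card := by
  by_contra hx
  push Not at hx
  have e : ∑ y ∈ W \ F, (U.filter (G.Adj y)).card = ∑ u ∈ U, ((W \ F).filter (G.Adj u)).card := by
    simp only [card_filter]
    rw [sum_comm]
    exact sum_congr rfl fun u _ => sum_congr rfl fun y _ => by simp only [G.adj_comm]
  have a1 : U.card * n ≤ 61 * ∑ u ∈ U, ((W \ F).filter (G.Adj u)).card := by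
    rw [mul_sum]
    exact card_nsmul_le_sum _ _ _ fun u hu => h.deg F hF u (hU hu)
  obtain ⟨u, hu⟩ := hne
  have a2 : (W \ F).Nonempty := by
    have := h.deg F hF u (hU hu)
    have := h.pos
    exact (card_pos.1 (by omega)).mono (filter_subset (G.Adj u) _)
  have a3 := sum_lt_sum_of_nonempty a2 hx
  rw [← mul_sum, e, sum_const, smul_eq_mul, mul_comm (W \ F).card] at a3
  have a4 := Nat.mul_le_mul_left U.card ((card_le_card (sdiff_subset (t := F))).trans h.card)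
  omega

theorem Rob.dom (h : Rob G n K W) {F : Finset V} (hF : F.card ≤ K) : ∃ X ⊆ W \ F,
    X.card ≤ 12200 ∧ 200 * (W.filter fun v => ∀ x ∈ X, ¬ G.Adj x v).card ≤ n := by
  have key : ∀ i, ∃ X ⊆ W \ F, X.card ≤ i ∧
      (200 * (W.filter fun v => ∀ x ∈ X, ¬ G.Adj x v).card ≤ n ∨
        12200 * (W.filter fun v => ∀ x ∈ X, ¬ G.Adj x v).card + i * n ≤ 12200 * n) := by
    intro i
    induction i with
    | zero => exact ⟨∅, by simp, by simp, Or.inr (by simpa using h.card)⟩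
    | succ i ih =>
      obtain ⟨X, h1, h2, h3⟩ := ih
      by_cases h4 : 200 * (W.filter fun v => ∀ x ∈ X, ¬ G.Adj x v).card ≤ n
      · exact ⟨X, h1, by omega, Or.inl h4⟩
      obtain ⟨y, hy, h5⟩ := h.avg hF (filter_subset (fun v => ∀ x ∈ X, ¬ G.Adj x v) W)
        (card_pos.1 (by omega))
      refine ⟨insert y X, insert_subset hy h1, (card_insert_le _ _).trans (by omega), Or.inr ?_⟩
      have a1 := card_filter_add_card_filter_not (s := W.filter fun v => ∀ x ∈ X, ¬ G.Adj x v)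
        (G.Adj y)
      have a2 : (W.filter fun v => ∀ x ∈ insert y X, ¬ G.Adj x v) ⊆
          (W.filter fun v => ∀ x ∈ X, ¬ G.Adj x v).filter fun v => ¬ G.Adj y v := fun v hv => by
        simp only [mem_filter, forall_mem_insert] at hv ⊢
        tauto
      have a3 := card_le_card a2
      rw [add_mul]
      omega
  obtain ⟨X, h1, h2, h3⟩ := key 12200
  exact ⟨X, h1, h2, by omega⟩

theorem Rob.biclique (h : Rob G n K W) {F : Finset V} {D : ℕ} (hF : F.card + D ≤ K)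
    (hW : 61 ^ D * (K + 1) ≤ W.card) : ∃ Y ⊆ W \ F, ∃ Z ⊆ W \ F, Y.card = D ∧ Z.card = D ∧
      ∀ y ∈ Y, ∀ z ∈ Z, G.Adj y z := by
  have key : ∀ j ≤ D, ∃ Y ⊆ W \ F, Y.card = j ∧
      W.card ≤ 61 ^ j * (W.filter fun v => ∀ y ∈ Y, G.Adj y v).card := by
    intro j
    induction j with
    | zero => exact fun _ => ⟨∅, by simp, rfl, by simp⟩
    | succ j ih =>
      intro hj
      obtain ⟨Y, h1, h2, h3⟩ := ih (by omega)
      obtain ⟨y, hy, h5⟩ := h.avg (F := F ∪ Y) ((card_union_le _ _).trans (by omega))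
        (filter_subset (fun v => ∀ y ∈ Y, G.Adj y v) W) (card_pos.1 (Nat.pos_of_ne_zero fun e => by
          have : 0 < 61 ^ D * (K + 1) := by positivity
          rw [e] at h3; omega))
      simp only [mem_sdiff, mem_union, not_or] at hy
      refine ⟨insert y Y, insert_subset (mem_sdiff.2 ⟨hy.1, hy.2.1⟩) h1,
        by rw [card_insert_of_notMem hy.2.2, h2], h3.trans ?_⟩
      rw [pow_succ, mul_assoc]
      refine Nat.mul_le_mul_left _ (h5.trans (Nat.mul_le_mul_left _ (card_le_card fun v hv => ?_)))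
      simp only [mem_filter, forall_mem_insert] at hv ⊢
      tauto
  obtain ⟨Y, h1, h2, h3⟩ := key D le_rfl
  have a1 := Nat.le_of_mul_le_mul_left (hW.trans h3) (by positivity)
  have a2 := le_card_sdiff F (W.filter fun v => ∀ y ∈ Y, G.Adj y v)
  obtain ⟨Z, h4, h5⟩ := exists_subset_card_eq (n := D)
    (s := (W.filter fun v => ∀ y ∈ Y, G.Adj y v) \ F) (by omega)
  exact ⟨Y, h1, Z, h4.trans (sdiff_subset_sdiff (filter_subset _ _) Subset.rfl), h2, h5,
    fun y hy z hz => (mem_filter.1 (mem_sdiff.1 (h4 hz)).1).2 y hy⟩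

theorem zig (j : ℕ) : ∀ (Y Z : Finset V), (∀ y ∈ Y, ∀ z ∈ Z, G.Adj y z) → j + 2 ≤ Y.card →
    j + 1 ≤ Z.card → ∀ y ∈ Y, ∀ y' ∈ Y, y ≠ y' → ∃ l, Ch G.Adj y y' l ∧ l.Nodup ∧
      (∀ x ∈ l, x ∈ Y ∨ x ∈ Z) ∧ l.length = 2 * j + 3 := by
  induction j with
  | zero =>
    intro Y Z ha _ hZ y hy y' hy' hne
    obtain ⟨z, hz⟩ := card_pos.1 (show 0 < Z.card by omega)
    exact ⟨[y, z, y'], Ch.cons (ha y hy z hz) (Ch.cons (ha y' hy' z hz).symm (Ch.one _)),
      by simp [hne, (ha y hy z hz).ne, (ha y' hy' z hz).ne'], by simp [hy, hy', hz], rfl⟩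
  | succ j ih =>
    intro Y Z ha hY hZ y hy y' hy' hne
    obtain ⟨z, hz⟩ := card_pos.1 (show 0 < Z.card by omega)
    have h1 := card_erase_of_mem hy
    have h2 : y' ∈ Y.erase y := mem_erase.2 ⟨hne.symm, hy'⟩
    obtain ⟨w, hw⟩ := card_pos.1 (show 0 < ((Y.erase y).erase y').card by
      rw [card_erase_of_mem h2]; omega)
    obtain ⟨l, c, d, e, f⟩ := ih (Y.erase y) (Z.erase z)
      (fun a ha' b hb => ha a (mem_of_mem_erase ha') b (mem_of_mem_erase hb)) (by omega)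
      (by rw [card_erase_of_mem hz]; omega) w (mem_of_mem_erase hw) y' h2 (ne_of_mem_erase hw)
    refine ⟨y :: z :: l, Ch.cons (ha y hy z hz)
      (Ch.cons (ha w (mem_of_mem_erase (mem_of_mem_erase hw)) z hz).symm c), ?_, ?_, by simp [f]; ring⟩
    · simp only [List.nodup_cons, List.mem_cons, not_or]
      refine ⟨⟨(ha y hy z hz).ne, fun h => ?_⟩, fun h => ?_, d⟩
      · rcases e y h with h | h
        exacts [by simp at h, (ha y hy y (mem_of_mem_erase h)).ne rfl]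
      · rcases e z h with h | h
        exacts [(ha z (mem_of_mem_erase h) z hz).ne rfl, by simp at h]
    · simp only [List.forall_mem_cons]
      exact ⟨Or.inl hy, Or.inr hz, fun x hx => (e x hx).imp mem_of_mem_erase mem_of_mem_erase⟩

theorem Rob.even (h : Rob G n K W) (hK : 300 ≤ K) (hW : 61 ^ 300 * (K + 1) ≤ W.card) {m : ℕ}
    (h1 : 2 ≤ m) (h2 : m ≤ 300) : Cyc G (2 * m) := by
  obtain ⟨Y, -, Z, -, c1, c2, ha⟩ := h.biclique (F := ∅) (D := 300) (by simpa using hK) hW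
  obtain ⟨z, hz⟩ := card_pos.1 (show 0 < Z.card by omega)
  obtain ⟨y, hy, y', hy', hne⟩ := one_lt_card.1 (show 1 < Y.card by omega)
  obtain ⟨l, c, d, e, f⟩ := zig (G := G) (m - 2) Y (Z.erase z)
    (fun a ha' b hb => ha a ha' b (mem_of_mem_erase hb)) (by omega)
    (by rw [card_erase_of_mem hz]; omega) y hy y' hy' hne
  obtain ⟨w, p, hp, hl⟩ := cycle_of_ch (Ch.cons (ha y hy z hz).symm c) (List.nodup_cons.2 ⟨fun h => by
    rcases e z h with h | h
    exacts [(ha z h z hz).ne rfl, by simp at h], d⟩) (ha y' hy' z hz) (by simp; omega)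
  exact ⟨w, p, hp, by rw [hl]; simp; omega⟩

theorem Rob.adjust (h : Rob G n K W) (hK : 1000 ≤ K) (hW : 61 ^ 300 * (K + 1) ≤ W.card) {a b c : V}
    (ha : a ∈ W) (hb : b ∈ W) (hc : c ∈ W) (ab : G.Adj a b) (ac : G.Adj a c) (cb : G.Adj c b) :
    ∃ S ⊆ W, S.card ≤ 789 ∧ ∃ r ∈ S, ∃ r' ∈ S, r ≠ r' ∧ ∀ L, 191 ≤ L → L ≤ 600 →
      ∃ l, Ch G.Adj r r' l ∧ l.Nodup ∧ (∀ x ∈ l, x ∈ S) ∧ l.length = L := by
  obtain ⟨Y, sY, Z, sZ, c1, c2, hA⟩ := h.biclique (F := {a, b, c}) (D := 300)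
    (by have := card_le_three (a := a) (b := b) (c := c); omega) hW
  obtain ⟨y, hy, y', hy', hne⟩ := one_lt_card.1 (show 1 < Y.card by omega)
  have sU : ∀ x ∈ Y ∪ Z, x ∈ W ∧ x ≠ a ∧ x ≠ b ∧ x ≠ c := fun x hx => by
    simpa using union_subset sY sZ hx
  have cU := card_union_le Y Z
  have y0 := sU y (mem_union_left _ hy)
  obtain ⟨l0, c0, d0, e0, f0⟩ := h.short (F := {a, c} ∪ (Y ∪ Z).erase y) (u := b) (v := y)
    ((card_union_le _ _).trans (by
      have := card_le_two (a := a) (b := c); have := card_erase_le (s := Y ∪ Z) (a := y); omega))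
    (by
      simp only [mem_sdiff, mem_union, mem_insert, mem_singleton, mem_erase, not_or, not_and]
      exact ⟨hb, ⟨ab.ne', cb.ne'⟩, fun _ => ⟨fun h => (sU b (mem_union_left _ h)).2.2.1 rfl,
        fun h => (sU b (mem_union_right _ h)).2.2.1 rfl⟩⟩)
    (by simp [y0])
  simp only [mem_sdiff, mem_union, mem_insert, mem_singleton, mem_erase, not_or, not_and] at e0
  refine ⟨{a, c} ∪ (l0.toFinset ∪ (Y ∪ Z)), union_subset (by simp [insert_subset_iff, ha, hc])
    (union_subset (fun x hx => (e0 x (List.mem_toFinset.1 hx)).1) fun x hx => (sU x hx).1),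
    (card_union_le _ _).trans ?_, a, by simp, y', by simp [hy'],
    (sU y' (mem_union_left _ hy')).2.1.symm, fun L h1 h2 => ?_⟩
  · have := card_le_two (a := a) (b := c)
    have := card_union_le l0.toFinset (Y ∪ Z)
    have := List.toFinset_card_le l0
    omega
  have h3 := List.length_pos_iff.2 c0.ne_nil
  obtain ⟨l, c', d, e, f⟩ := zig (G := G) ((L - 1 - l0.length) / 2 - 1) Y Z hA (by omega) (by omega)
    y hy y' hy' hne
  obtain ⟨t, rfl⟩ := c'.head
  have c2 := c0.join c'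
  have m : ∀ x ∈ t, x ∈ Y ∪ Z := fun x hx => mem_union.2 (e x (List.mem_cons_of_mem _ hx))
  have d2 : (l0 ++ t).Nodup := List.nodup_append.2 ⟨d0, d.of_cons, by
    rintro x hx _ hx' rfl
    have := (e0 x hx).2.2 (by rintro rfl; exact (List.nodup_cons.1 d).1 hx')
    have := mem_union.1 (m x hx')
    tauto⟩
  have n2 : ∀ x ∈ l0 ++ t, x ≠ a ∧ x ≠ c ∧ x ∈ {a, c} ∪ (l0.toFinset ∪ (Y ∪ Z)) := fun x hx => by
    rcases List.mem_append.1 hx with hx | hx
    · exact ⟨(e0 x hx).2.1.1, (e0 x hx).2.1.2, by simp [hx]⟩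
    · exact ⟨(sU x (m x hx)).2.1, (sU x (m x hx)).2.2.2,
        mem_union_right _ (mem_union_right _ (m x hx))⟩
  simp only [List.length_cons] at f
  rcases Nat.mod_two_eq_zero_or_one (L - 1 - l0.length) with p | p
  · exact ⟨a :: (l0 ++ t), Ch.cons ab c2, List.nodup_cons.2 ⟨fun h => (n2 a h).1 rfl, d2⟩,
      List.forall_mem_cons.2 ⟨by simp, fun x hx => (n2 x hx).2.2⟩, by simp; omega⟩
  · exact ⟨a :: c :: (l0 ++ t), Ch.cons ac (Ch.cons cb c2), List.nodup_cons.2 ⟨fun h => by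
      rcases List.mem_cons.1 h with h | h
      exacts [ac.ne h, (n2 a h).1 rfl], List.nodup_cons.2 ⟨fun h => (n2 c h).2.1 rfl, d2⟩⟩,
      List.forall_mem_cons.2 ⟨by simp, List.forall_mem_cons.2 ⟨by simp, fun x hx => (n2 x hx).2.2⟩⟩,
      by simp; omega⟩

theorem Rob.fan (h : Rob G n K W) {F : Finset V} (hF : F.card ≤ K) {r : V} (hr : r ∈ W) :
    ∃ X S : Finset V, S.card ≤ 12200 * 187 ∧
      200 * (W.filter fun v => ∀ x ∈ X, ¬ G.Adj x v).card ≤ n ∧ (∀ v ∈ S, v ∈ F → v = r) ∧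
      ∀ x ∈ X, ∃ l, Ch G.Adj x r l ∧ l.Nodup ∧ (∀ v ∈ l, v ∈ S) ∧ l.length ≤ 187 := by
  obtain ⟨X, h1, h2, h3⟩ := h.dom hF
  have : ∀ x ∈ X, ∃ l, Ch G.Adj x r l ∧ l.Nodup ∧ (∀ v ∈ l, v ∈ W \ F.erase r) ∧ l.length ≤ 187 :=
    fun x hx => h.short (card_erase_le.trans hF)
      (sdiff_subset_sdiff Subset.rfl (erase_subset _ _) (h1 hx)) (by simp [hr])
  choose! p hp using this
  refine ⟨X, X.biUnion fun x => (p x).toFinset, (card_biUnion_le_card_mul _ _ 187 fun x hx =>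
    (List.toFinset_card_le _).trans (hp x hx).2.2.2).trans (Nat.mul_le_mul_right _ h2), h3,
    fun v hv hF => ?_, fun x hx => ⟨p x, (hp x hx).1, (hp x hx).2.1,
      fun v hv => mem_biUnion.2 ⟨x, hx, List.mem_toFinset.2 hv⟩, (hp x hx).2.2.2⟩⟩
  obtain ⟨x, hx, hv⟩ := mem_biUnion.1 hv
  have := (hp x hx).2.2.1 v (List.mem_toFinset.1 hv)
  simp only [mem_sdiff, mem_erase, not_and] at this
  by_contra hne
  exact this.2 hne hF

theorem rotate {U Bad : Finset V} (hd : ∀ v ∈ U, 2 * Bad.card < (U.filter (G.Adj v)).card)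
    {u v : V} {l : List V} (c : Ch G.Adj u v l) (hn : l.Nodup) (hU : ∀ x ∈ l, x ∈ U) :
    ∃ u' l', Ch G.Adj u' v l' ∧ l'.Nodup ∧ (∀ x ∈ l', x ∈ U) ∧ u' ∉ Bad ∧
      l.length ≤ l'.length ∧ l'.length ≤ l.length + 1 := by
  by_cases h1 : ∃ w ∈ U, G.Adj u w ∧ w ∉ l ∧ w ∉ Bad
  · obtain ⟨w, hw, r, h2, h3⟩ := h1
    exact ⟨w, w :: l, Ch.cons r.symm c, List.nodup_cons.2 ⟨h2, hn⟩,
      List.forall_mem_cons.2 ⟨hw, hU⟩, h3, by simp, by simp⟩
  by_cases h2 : ∃ A p w B, l = A ++ p :: w :: B ∧ p ∉ Bad ∧ G.Adj u w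
  · obtain ⟨A, p, w, B, rfl, h3, r⟩ := h2
    have e : A ++ p :: w :: B = (A ++ [p]) ++ w :: B := by simp
    have pm : ((A ++ [p]).reverse ++ w :: B).Perm (A ++ p :: w :: B) :=
      e ▸ (List.reverse_perm _).append_right _
    exact ⟨p, _, (c.left.rev fun _ _ => G.adj_symm).app r (e ▸ c : Ch _ u v _).right,
      hn.perm pm.symm, fun x hx => hU x (pm.subset hx), h3, pm.length_eq.ge,
      pm.length_eq.le.trans (Nat.le_succ _)⟩
  exfalso
  push Not at h1 h2
  obtain ⟨t, rfl⟩ := c.head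
  have a1 := cnt_shift (G.Adj u) (fun x => x ∉ Bad) u t fun A p w B e hp => by
    simpa using h2 A p w B e (by simpa using hp)
  have a2 := List.length_eq_countP_add_countP (fun x => decide (x ∉ Bad)) (l := (u :: t).dropLast)
  have a3 := countP_le_card (X := Bad) (p := fun a => ¬ decide (a ∉ Bad) = true)
    (hn.sublist (List.dropLast_sublist _)) (by simp)
  have a4 := card_le_countP (X := U \ Bad) (p := G.Adj u) (l := u :: t) fun x hx r => by
    by_contra h
    exact (mem_sdiff.1 hx).2 (h1 x (mem_sdiff.1 hx).1 r h)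
  have a5 := hd u (hU u (by simp))
  have a6 : (U.filter (G.Adj u)).card ≤ ((U \ Bad).filter (G.Adj u) ∪ Bad).card :=
    card_le_card fun x hx => by
      simp only [mem_filter, mem_union, mem_sdiff] at hx ⊢
      tauto
  have a7 := card_union_le ((U \ Bad).filter (G.Adj u)) Bad
  simp only [List.countP_cons, G.irrefl, decide_false, List.length_dropLast, List.length_cons] at a4 a2
  simp only [Bool.false_eq_true, if_false] at a4
  omega

/-- A bounded set of vertices which closes paths outside it into cycles. -/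
theorem Rob.close (h : Rob G n K W) (hK : 5000000 ≤ K) (hW : 61 ^ 300 * (K + 1) ≤ W.card)
    {a b c : V} (ha : a ∈ W) (hb : b ∈ W) (hc : c ∈ W) (ab : G.Adj a b) (ac : G.Adj a c)
    (cb : G.Adj c b) : ∃ S : Finset V, S.card ≤ 5000000 ∧ ∀ u v l, Ch G.Adj u v l → l.Nodup →
      (∀ x ∈ l, x ∈ W \ S) → Cyc G (l.length + 570) := by
  obtain ⟨S0, s0, k0, r, hr, r', hr', hne, hL⟩ := h.adjust (by omega) hW ha hb hc ab ac cb
  obtain ⟨X1, S1, k1, b1, d1, p1⟩ := h.fan (F := S0) (by omega) (s0 hr)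
  have u1 := card_union_le S0 S1
  obtain ⟨X2, S2, k2, b2, d2, p2⟩ := h.fan (F := S0 ∪ S1) (by omega) (s0 hr')
  have u2 := card_union_le (S0 ∪ S1) S2
  refine ⟨S0 ∪ S1 ∪ S2, by omega, fun u v l c0 n0 m0 => ?_⟩
  have dg : ∀ B : Finset V, 200 * B.card ≤ n → ∀ v ∈ W \ (S0 ∪ S1 ∪ S2),
      2 * B.card < ((W \ (S0 ∪ S1 ∪ S2)).filter (G.Adj v)).card := fun B hB v hv => by
    have := h.deg (S0 ∪ S1 ∪ S2) (by omega) v (mem_sdiff.1 hv).1
    have := h.pos
    omega
  obtain ⟨u1, l1, c1, n1, m1, g1, e1, e1'⟩ := rotate (dg _ b1) c0 n0 m0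
  obtain ⟨u2, l2, c2, n2, m2, g2, e2, e2'⟩ := rotate (dg _ b2) (c1.rev fun _ _ => G.adj_symm)
    (List.nodup_reverse.2 n1) fun x hx => m1 x (List.mem_reverse.1 hx)
  simp only [mem_filter, not_and, not_forall, not_not, List.length_reverse] at g1 g2 e2 e2'
  obtain ⟨x1, hx1, r1⟩ := g1 (mem_sdiff.1 (m1 _ c1.head_mem)).1
  obtain ⟨x2, hx2, r2⟩ := g2 (mem_sdiff.1 (m2 _ c2.head_mem)).1
  obtain ⟨q1, a1, o1, i1, j1⟩ := p1 x1 hx1
  obtain ⟨q2, a2, o2, i2, j2⟩ := p2 x2 hx2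
  have z1 := List.length_pos_iff.2 a1.ne_nil
  have z2 := List.length_pos_iff.2 a2.ne_nil
  obtain ⟨q, a3, o3, i3, j3⟩ := hL (l.length + 572 - l2.length - q1.length - q2.length)
    (by omega) (by omega)
  obtain ⟨t, rfl⟩ := a3.head
  have a4 := a2.rev fun _ _ => G.adj_symm
  obtain ⟨t', et⟩ := a4.head
  have o4 := List.nodup_reverse.2 o2
  have i4 : ∀ x ∈ r' :: t', x ∈ S2 := fun x hx => i2 x (List.mem_reverse.1 (et ▸ hx))
  have j4 := congrArg List.length et
  rw [et] at a4 o4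
  have i5 : ∀ x ∈ q1 ++ t, x ∈ S0 ∪ S1 := fun x hx => by
    rcases List.mem_append.1 hx with hx | hx
    exacts [mem_union_right _ (i1 x hx), mem_union_left _ (i3 x (List.mem_cons_of_mem _ hx))]
  obtain ⟨w, p, hp, hl⟩ := cycle_of_ch (c2.app r1.symm ((a1.join a3).join a4))
    (List.nodup_append.2 ⟨n2, List.nodup_append.2 ⟨List.nodup_append.2 ⟨o1, o3.of_cons, by
      rintro x hx _ hx' rfl
      exact (List.nodup_cons.1 o3).1 (d1 x (i1 x hx) (i3 x (List.mem_cons_of_mem _ hx')) ▸ hx')⟩,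
      o4.of_cons, by
      rintro x hx _ hx' rfl
      exact (List.nodup_cons.1 o4).1 (d2 x (i4 x (List.mem_cons_of_mem _ hx')) (i5 x hx) ▸ hx')⟩, by
      rintro x hx _ hx' rfl
      refine (mem_sdiff.1 (m2 x hx)).2 ?_
      rcases List.mem_append.1 hx' with h | h
      exacts [mem_union_left _ (i5 x h), mem_union_right _ (i4 x (List.mem_cons_of_mem _ h))]⟩)
    r2 (by simp only [List.length_append, List.length_cons] at j3 ⊢; omega)
  refine ⟨w, p, hp, ?_⟩
  simp only [List.length_append, List.length_cons, List.length_reverse] at hl j3 j4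
  omega

end Pool.Agent.P.MP_bc5e1d_co
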