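import Pool.Agent.P.MP_bc5e1d_co.Kop

/-! Perron vectors of induced subgraphs and the spectral path theorem. -/

namespace Pool.Agent.P.MP_bc5e1d_co

open Finset Classical

variable {V : Type} [Fintype V] [DecidableEq V] (G : SimpleGraph V)

/-- The adjacency form between two vertex sets. -/
noncomputable def bil (x y : V → ℝ) (S T : Finset V) : ℝ :=
  ∑ v ∈ S, ∑ u ∈ T, if G.Adj v u then x v * y u else 0

/-- A nonnegative unit vector maximising the adjacency form on `W`. -/
structure Per (W : Finset V) (μ : ℝ) (x : V → ℝ) : Prop where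
  nonneg : ∀ v, 0 ≤ x v
  norm : ∑ v ∈ W, x v ^ 2 = 1
  eig : ∀ v ∈ W, ∑ u ∈ W.filter (G.Adj v), x u = μ * x v
  bnd : ∀ y : V → ℝ, bil G y y W W ≤ μ * ∑ v ∈ W, y v ^ 2

variable {G}

omit [Fintype V] [DecidableEq V] in
theorem bil_comm (x y : V → ℝ) (S T : Finset V) : bil G x y S T = bil G y x T S := by
  unfold bil
  rw [sum_comm]
  exact sum_congr rfl fun v _ => sum_congr rfl fun u _ => by simp only [G.adj_comm, mul_comm]

omit [Fintype V] [DecidableEq V] in
theorem bil_eq (x y : V → ℝ) (S T : Finset V) :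
    bil G x y S T = ∑ v ∈ S, x v * ∑ u ∈ T.filter (G.Adj v), y u := by
  unfold bil
  exact sum_congr rfl fun v _ => by rw [mul_sum, sum_filter]

omit [Fintype V] in
theorem bil_left {x y : V → ℝ} {S S' : Finset V} (h : S' ⊆ S) (T : Finset V) :
    bil G x y S T = bil G x y S' T + bil G x y (S \ S') T := by
  unfold bil
  rw [← sum_sdiff h, add_comm]

omit [Fintype V] in
theorem bil_right {x y : V → ℝ} (S : Finset V) {T T' : Finset V} (h : T' ⊆ T) :
    bil G x y S T = bil G x y S T' + bil G x y S (T \ T') := by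
  rw [bil_comm, bil_left h, bil_comm y, bil_comm y]

omit [Fintype V] [DecidableEq V] in
theorem bil_nonneg {x : V → ℝ} (h : ∀ v, 0 ≤ x v) (S T : Finset V) : 0 ≤ bil G x x S T :=
  sum_nonneg fun v _ => sum_nonneg fun u _ => by
    split_ifs
    exacts [mul_nonneg (h v) (h u), le_rfl]

theorem exists_per {W : Finset V} (hW : W.Nonempty) : ∃ μ x, Per G W μ x := by
  let K : Set (V → ℝ) := {x | (∀ v ∉ W, x v = 0) ∧ ∑ v ∈ W, x v ^ 2 = 1}
  have hK : IsCompact K := by
    refine Metric.isCompact_of_isClosed_isBounded (IsClosed.inter ?_ ?_) ?_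
    · show IsClosed {x : V → ℝ | ∀ v ∉ W, x v = 0}
      simp only [Set.ofPred_forall]
      exact isClosed_iInter fun v => isClosed_iInter fun _ =>
        isClosed_eq (continuous_apply v) continuous_const
    · exact isClosed_eq (by fun_prop) continuous_const
    · refine (Metric.isBounded_closedBall (x := 0) (r := 1)).subset fun x hx => ?_
      rw [mem_closedBall_zero_iff, pi_norm_le_iff_of_nonneg zero_le_one]
      intro v
      by_cases hv : v ∈ W
      · rw [Real.norm_eq_abs, ← sq_le_one_iff_abs_le_one, ← hx.2]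
        exact single_le_sum (f := fun v => x v ^ 2) (fun _ _ => sq_nonneg _) hv
      · simp [hx.1 v hv]
  obtain ⟨w, hw⟩ := hW
  have hc : Continuous fun x : V → ℝ => bil G x x W W := by
    unfold bil
    refine continuous_finsetSum _ fun v _ => continuous_finsetSum _ fun u _ => ?_
    split_ifs <;> fun_prop
  obtain ⟨x, hx, hm⟩ := hK.exists_isMaxOn ⟨Pi.single w 1, fun v hv => by
    rw [Pi.single_eq_of_ne (by rintro rfl; exact hv hw)], by
    simp [Pi.single_apply, hw]⟩ hc.continuousOn
  have bnd : ∀ y : V → ℝ, bil G y y W W ≤ bil G x x W W * ∑ v ∈ W, y v ^ 2 := by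
    intro y
    rcases (sum_nonneg fun v _ => sq_nonneg (y v) : 0 ≤ ∑ v ∈ W, y v ^ 2).eq_or_lt with h | h
    · rw [← h, mul_zero, bil_eq]
      refine (sum_eq_zero fun v hv => ?_).le
      rw [pow_eq_zero_iff two_ne_zero |>.1
        ((sum_eq_zero_iff_of_nonneg fun v _ => sq_nonneg (y v)).1 h.symm v hv), zero_mul]
    · set s := ∑ v ∈ W, y v ^ 2 with hs
      have hq : √s ^ 2 = s := Real.sq_sqrt h.le
      have hp : 0 < √s := Real.sqrt_pos.2 h
      have := hm (a := fun v => if v ∈ W then y v / √s else 0) ⟨fun v hv => if_neg hv, by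
        rw [sum_congr rfl (g := fun v => y v ^ 2 / s) fun v hv => by
          simp only [if_pos hv, div_pow, hq], ← sum_div, div_self h.ne']⟩
      have e : bil G (fun v => if v ∈ W then y v / √s else 0)
          (fun v => if v ∈ W then y v / √s else 0) W W = bil G y y W W / s := by
        unfold bil
        rw [sum_div]
        refine sum_congr rfl fun v hv => ?_
        rw [sum_div]
        refine sum_congr rfl fun u hu => ?_
        simp only [if_pos hv, if_pos hu]
        split_ifs
        · rw [div_mul_div_comm, ← sq, hq]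
        · simp
      simp only [Set.mem_ofPred_eq, e] at this
      exact (div_le_iff₀ h).1 this
  set μ := bil G x x W W with hμ
  have n1 : ∑ v ∈ W, |x v| ^ 2 = 1 := by simpa only [sq_abs] using hx.2
  have e1 : bil G (fun v => |x v|) (fun v => |x v|) W W = μ := by
    refine le_antisymm (by simpa only [n1, mul_one] using bnd fun v => |x v|) ?_
    refine sum_le_sum fun v _ => sum_le_sum fun u _ => ?_
    split_ifs
    exacts [by rw [← abs_mul]; exact le_abs_self _, le_rfl]
  refine ⟨μ, fun v => |x v|, fun v => abs_nonneg _, n1, fun v hv => ?_, bnd⟩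
  set z : V → ℝ := fun v => |x v|
  set d := ∑ u ∈ W.filter (G.Adj v), z u - μ * z v
  have key : ∀ t : ℝ, 2 * t * d ≤ μ * t ^ 2 := fun t => by
    have h := bnd fun u => z u + (Pi.single v t : V → ℝ) u
    have a1 : ∑ u ∈ W, (z u + (Pi.single v t : V → ℝ) u) ^ 2 = 1 + 2 * t * z v + t ^ 2 := by
      simp only [add_sq, sum_add_distrib, n1, z]
      simp [Pi.single_apply, hv]; ring
    have a2 : bil G (Pi.single v t) z W W = t * ∑ u ∈ W.filter (G.Adj v), z u := by
      simp [bil_eq, Pi.single_apply, hv]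
    have a3 : bil G (Pi.single v t) (Pi.single v t) W W = 0 := by
      refine sum_eq_zero fun a _ => sum_eq_zero fun b _ => ?_
      split_ifs with hab
      · by_cases ha : a = v
        · rw [Pi.single_eq_of_ne (show b ≠ v from ha ▸ hab.ne'), mul_zero]
        · rw [Pi.single_eq_of_ne ha, zero_mul]
      · rfl
    have a4 : bil G (fun u => z u + (Pi.single v t : V → ℝ) u)
        (fun u => z u + (Pi.single v t : V → ℝ) u) W W = bil G z z W W +
          bil G (Pi.single v t) z W W + bil G z (Pi.single v t) W W +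
          bil G (Pi.single v t) (Pi.single v t) W W := by
      simp only [bil_eq, sum_add_distrib, add_mul, mul_add]; ring
    rw [a1, a4, bil_comm z (Pi.single v t), a2, a3, e1] at h
    simp only [d]
    linarith
  have hd : d = 0 := by
    have h1 := key (d / (|μ| + 1))
    have h2 : 0 < |μ| + 1 := by positivity
    rw [div_pow, ← mul_div_assoc, ← mul_div_assoc, div_mul_eq_mul_div, div_le_div_iff₀ h2
      (by positivity)] at h1
    have h3 := le_abs_self μ
    have h4 : d ^ 2 * (|μ| + 1) * (|μ| + 2) ≤ 0 := by nlinarith [sq_nonneg d, mul_nonneg (sq_nonneg d) h2.le]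
    have h5 : d ^ 2 ≤ 0 := by
      by_contra h6
      exact absurd h4 (not_le.2 (by push Not at h6; positivity))
    exact pow_eq_zero_iff two_ne_zero |>.1 (le_antisymm h5 (sq_nonneg d))
  exact sub_eq_zero.1 hd

variable (G) in
/-- The largest eigenvalue of the subgraph induced on `W`. -/
noncomputable def lam (W : Finset V) : ℝ := if h : W.Nonempty then (exists_per (G := G) h).choose else 0

theorem lam_per {W : Finset V} (h : W.Nonempty) : ∃ x, Per G W (lam G W) x := by
  rw [lam, dif_pos h]; exact (exists_per h).choose_spec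

theorem lam_bnd (W : Finset V) (y : V → ℝ) : bil G y y W W ≤ lam G W * ∑ v ∈ W, y v ^ 2 := by
  rcases W.eq_empty_or_nonempty with rfl | h
  · simp [bil]
  · exact (lam_per h).choose_spec.bnd y

omit [Fintype V] [DecidableEq V] in
theorem Per.bil_sub {W S : Finset V} {μ : ℝ} {x : V → ℝ} (h : Per G W μ x) (hS : S ⊆ W) :
    bil G x x S W = μ * ∑ v ∈ S, x v ^ 2 := by
  rw [bil_eq, mul_sum]
  exact sum_congr rfl fun v hv => by rw [h.eig v (hS hv)]; ring

theorem lam_nonneg (W : Finset V) : 0 ≤ lam G W := by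
  rcases W.eq_empty_or_nonempty with rfl | h
  · simp [lam]
  · obtain ⟨x, hx⟩ := lam_per (G := G) h
    have := bil_nonneg (G := G) hx.nonneg W W
    rwa [hx.bil_sub Subset.rfl, hx.norm, mul_one] at this

omit [Fintype V] [DecidableEq V] in
theorem Per.entry {W : Finset V} {μ : ℝ} {x : V → ℝ} (h : Per G W μ x) {v : V} (hv : v ∈ W) :
    (μ * x v) ^ 2 ≤ (W.filter (G.Adj v)).card := by
  rw [← h.eig v hv]
  refine sq_sum_le_card_mul_sum_sq.trans (mul_le_of_le_one_right (by positivity) ?_)
  rw [← h.norm]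
  exact sum_le_sum_of_subset_of_nonneg (filter_subset _ _) fun _ _ _ => sq_nonneg _

theorem lam_le_card (W : Finset V) : lam G W ≤ W.card := by
  rcases W.eq_empty_or_nonempty with rfl | h
  · simp [lam]
  · obtain ⟨x, hx⟩ := lam_per (G := G) h
    refine abs_le_of_sq_le_sq' ?_ (by positivity) |>.2
    calc lam G W ^ 2 = ∑ v ∈ W, (lam G W * x v) ^ 2 := by
          simp only [mul_pow, ← mul_sum, hx.norm, mul_one]
      _ ≤ ∑ _v ∈ W, (W.card : ℝ) := sum_le_sum fun v hv =>
          (hx.entry hv).trans (by exact_mod_cast card_filter_le _ _)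
      _ = _ := by simp [sq]

theorem Per.del {W W' : Finset V} {μ : ℝ} {x : V → ℝ} (h : Per G W μ x) (hW : W' ⊆ W) :
    μ - 2 * μ * ∑ v ∈ W \ W', x v ^ 2 ≤ lam G W' := by
  have a1 := h.bil_sub Subset.rfl
  have a2 := h.bil_sub (sdiff_subset (t := W'))
  rw [h.norm, mul_one, bil_left hW, bil_right W' hW, bil_comm x x W' (W \ W')] at a1
  have a3 := bil_right (G := G) (x := x) (y := x) (W \ W') hW
  have a4 := bil_nonneg (G := G) h.nonneg (W \ W') (W \ W')
  have a5 := lam_bnd (G := G) W' x
  have a6 : ∑ v ∈ W', x v ^ 2 ≤ 1 := by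
    rw [← h.norm]
    exact sum_le_sum_of_subset_of_nonneg hW fun _ _ _ => sq_nonneg _
  have a7 := mul_le_of_le_one_right (lam_nonneg (G := G) W') a6
  linarith

theorem lam_del {W W' : Finset V} (hW : W' ⊆ W) {n : ℝ} (hn : W.card ≤ n) (hl : n ≤ 3 * lam G W) :
    lam G W - 6 * (W \ W').card ≤ lam G W' := by
  rcases (lam_nonneg (G := G) W).eq_or_lt with h0 | h0
  · rw [← h0]
    linarith [lam_nonneg (G := G) W', (Nat.cast_nonneg (W \ W').card : (0 : ℝ) ≤ _)]
  have hne : W.Nonempty := by
    rw [← card_pos, ← Nat.cast_pos (α := ℝ)]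
    exact h0.trans_le (lam_le_card W)
  obtain ⟨x, hx⟩ := lam_per (G := G) hne
  refine le_trans (sub_le_sub_left ?_ _) (hx.del hW)
  rw [mul_sum, mul_comm (6 : ℝ), ← nsmul_eq_mul, ← sum_const]
  refine sum_le_sum fun v hv => ?_
  have a1 := (hx.entry (mem_sdiff.1 hv).1).trans
    ((Nat.cast_le.2 (card_filter_le _ _)).trans (hn.trans hl))
  refine le_of_mul_le_mul_left ?_ h0
  nlinarith

theorem lam_split {W A : Finset V} (hA : A ⊆ W) (h : ∀ a ∈ A, ∀ b ∈ W \ A, ¬ G.Adj a b) :
    lam G W ≤ max (lam G A) (lam G (W \ A)) := by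
  rcases W.eq_empty_or_nonempty with rfl | hne
  · simp [lam]
  obtain ⟨x, hx⟩ := lam_per (G := G) hne
  have a1 := hx.bil_sub Subset.rfl
  have a0 : bil G x x A (W \ A) = 0 :=
    sum_eq_zero fun a ha => sum_eq_zero fun b hb => if_neg (h a ha b hb)
  rw [hx.norm, mul_one, bil_left hA, bil_right A hA, bil_right (W \ A) hA,
    bil_comm x x (W \ A) A, a0] at a1
  have a2 := lam_bnd (G := G) A x
  have a3 := lam_bnd (G := G) (W \ A) x
  have a4 := hx.norm
  rw [← sum_sdiff hA] at a4
  have a5 := mul_le_mul_of_nonneg_right (le_max_left (lam G A) (lam G (W \ A)))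
    (sum_nonneg fun v _ => sq_nonneg (x v) : 0 ≤ ∑ v ∈ A, x v ^ 2)
  have a6 := mul_le_mul_of_nonneg_right (le_max_right (lam G A) (lam G (W \ A)))
    (sum_nonneg fun v _ => sq_nonneg (x v) : 0 ≤ ∑ v ∈ W \ A, x v ^ 2)
  have a7 : max (lam G A) (lam G (W \ A)) * (∑ v ∈ W \ A, x v ^ 2 + ∑ v ∈ A, x v ^ 2) =
      max (lam G A) (lam G (W \ A)) := by rw [a4, mul_one]
  linarith

end Pool.Agent.P.MP_bc5e1d_co
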